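import Pool.Graph.R_seed8.TH656.Bx.Line

/-!
# Boxicity three and paths: the configuration on the line

The items are paths whose vertices with even index alternate between two types, `X`-left and
`X`-right; a vertex of the first type may only meet frame vertices with odd residue, one of the
second type only frame vertices with even residue. The vertices with odd index may meet all frame
vertices except the separators. An item with `k` vertices of even index meets `k` different frame
vertices, and two items can only share an end.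
-/

set_option autoImplicit false

namespace Pool.Agent.KS6_79.BX

open Pool.Agent.TH656.Bx

theorem pathRep_neg {n : ℕ} {l r : ℕ → ℝ} (h : PathRep n l r) :
    PathRep n (fun q => - r q) (fun q => - l q) where
  le := fun q hq => by have := h.le q hq; linarith
  meet := fun q hq => by have := h.meet q hq; constructor <;> linarith [this.1, this.2]
  sep := fun p q hpq hq => by
    rcases h.sep p q hpq hq with h1 | h1
    · right; linarith
    · left; linarith

/-- of three intervals of a path the middle one is between the others -/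
theorem pathRep_between {n : ℕ} {l r : ℕ → ℝ} (h : PathRep n l r) {p q s : ℕ} (hpq : p + 2 ≤ q)
    (hqs : q + 2 ≤ s) (hs : s < n) : (r p < l q ∧ r q < l s) ∨ (r s < l q ∧ r q < l p) := by
  rcases h.sep p (p + 2) le_rfl (by omega) with h0 | h0
  · left
    exact ⟨h.mono h0 le_rfl hpq (by omega), h.mono h0 (by omega) hqs hs⟩
  · right
    have h' := pathRep_neg h
    have h0' : (fun q => - l q) p < (fun q => - r q) (p + 2) := by show - l p < - r (p + 2); linarith
    have h1 := h'.mono h0' le_rfl hpq (by omega)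
    have h2 := h'.mono h0' (by omega : p ≤ q) hqs hs
    constructor <;> linarith

/-- the item vertex with index `q` is allowed over the frame vertex `m` -/
def ok (C m q : ℕ) : Bool :=
  !decide (m % (C + 1) = 0) && (decide (q % 2 = 1) || decide ((m % (C + 1) + q / 2) % 2 = 1))

theorem ok_iff {C m q : ℕ} : ok C m q = true ↔
    m % (C + 1) ≠ 0 ∧ (q % 2 = 1 ∨ (m % (C + 1) + q / 2) % 2 = 1) := by
  simp [ok]

/-- the two types of the vertices of even index -/
def Opp (q q' : ℕ) : Prop := q % 2 = 0 ∧ q' % 2 = 0 ∧ (q / 2 + q' / 2) % 2 = 1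

/-- The configuration on the line. -/
structure Conf (K : List ℕ) (b C : ℕ) (L R : ℕ → ℝ) (lz rz : ℝ) (l r : ℕ → ℕ → ℝ) : Prop where
  frame : PathRep (b * (C + 1) + 1) L R
  le : ∀ i < K.length, ∀ q < 2 * K.getD i 0 - 1, l i q ≤ r i q
  meet : ∀ i < K.length, ∀ q, q + 1 < 2 * K.getD i 0 - 1 → l i q ≤ r i (q + 1) ∧ l i (q + 1) ≤ r i q
  sep : ∀ i < K.length, ∀ p q, p + 2 ≤ q → q < 2 * K.getD i 0 - 1 → ¬ Opp p q →
    Sep (l i p) (r i p) (l i q) (r i q)
  items : ∀ i < K.length, ∀ i' < K.length, i ≠ i' → ∀ q < 2 * K.getD i 0 - 1,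
    ∀ q' < 2 * K.getD i' 0 - 1, ¬ Opp q q' → Sep (l i q) (r i q) (l i' q') (r i' q')
  avoid : ∀ i < K.length, ∀ q < 2 * K.getD i 0 - 1, ∀ m ≤ b * (C + 1), ok C m q = false →
    Sep (l i q) (r i q) (L m) (R m)
  z0 : Sep lz rz (L 0) (R 0)
  zM : Sep lz rz (L (b * (C + 1))) (R (b * (C + 1)))
  zm : ∀ m, 0 < m → m < b * (C + 1) → lz ≤ R m ∧ L m ≤ rz
  zi : ∀ i < K.length, ∀ q < 2 * K.getD i 0 - 1, lz ≤ r i q ∧ l i q ≤ rz
  or : R 0 < L (b * (C + 1))

section

variable {K : List ℕ} {b C : ℕ} {L R : ℕ → ℝ} {lz rz : ℝ} {l r : ℕ → ℕ → ℝ}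

theorem hN (hb : 1 ≤ b) (hC : 1 ≤ C) : 2 ≤ b * (C + 1) :=
  calc 2 = 1 * 2 := by norm_num
    _ ≤ b * (C + 1) := Nat.mul_le_mul hb (by omega)

theorem hNC (hb : 1 ≤ b) (hC : 2 ≤ C) : 3 ≤ b * (C + 1) :=
  calc 3 = 1 * 3 := by norm_num
    _ ≤ b * (C + 1) := Nat.mul_le_mul hb (by omega)

theorem Conf.between (h : Conf K b C L R lz rz l r) (hb : 1 ≤ b) (hC : 2 ≤ C) {i : ℕ}
    (hi : i < K.length) {q : ℕ} (hq : q < 2 * K.getD i 0 - 1) :
    R 0 < l i q ∧ r i q < L (b * (C + 1)) := by
  have hM := hNC hb hC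
  have hfr := h.frame
  have hor := h.or
  have hz0 := h.z0
  have hzM := h.zM
  have hzm := h.zm
  have hav := h.avoid i hi q hq
  have hzi := h.zi i hi q hq
  have h0M : ok C (b * (C + 1)) q = false := by
    rw [← Bool.not_eq_true, ok_iff]
    intro hc
    exact hc.1 (Nat.mul_mod_left _ _)
  set M := b * (C + 1) with hMdef
  have hz : R 0 < lz := by
    rcases hz0 with h1 | h1
    · exfalso
      have h2 := (hzm (M - 1) (by omega) (by omega)).2
      have h3 := hfr.fmono (by omega) hor (p := 0) (q := M - 1) (by omega) (by omega)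
      have h4 := hfr.le 0 (by omega)
      linarith
    · exact h1
  have hz' : rz < L M := by
    rcases hzM with h1 | h1
    · exact h1
    · exfalso
      have h2 := (hzm 1 (by omega) (by omega)).1
      have h3 := hfr.fmono (by omega) hor (p := 1) (q := M) (by omega) (by omega)
      have h4 := hfr.le M (by omega)
      linarith
  constructor
  · rcases hav 0 (Nat.zero_le _) (by simp [ok]) with h1 | h1
    · have h4 := hfr.le 0 (by omega)
      linarith [hzi.1]
    · exact h1
  · rcases hav M le_rfl h0M with h1 | h1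
    · exact h1
    · have h4 := hfr.le M (by omega)
      linarith [hzi.2]

/-- a point of an item vertex is covered by a frame vertex over which it is allowed -/
theorem Conf.cov (h : Conf K b C L R lz rz l r) (hb : 1 ≤ b) (hC : 2 ≤ C) {i : ℕ}
    (hi : i < K.length) {q : ℕ} (hq : q < 2 * K.getD i 0 - 1) {t : ℝ} (h1 : l i q ≤ t)
    (h2 : t ≤ r i q) : ∃ m < b * (C + 1), L m ≤ t ∧ t ≤ R m ∧ ok C m q = true := by
  obtain ⟨h3, h4⟩ := h.between hb hC hi hq
  have h5 := h.frame.le 0 (by omega)
  obtain ⟨m, hm, h6, h7⟩ := h.frame.cover (t := t) (by linarith) (by linarith)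
  refine ⟨m, hm, h6, h7, ?_⟩
  by_contra hok
  rw [Bool.not_eq_true] at hok
  rcases h.avoid i hi q hq m hm.le hok with h8 | h8 <;> linarith

theorem Conf.opp (h : Conf K b C L R lz rz l r) (hb : 1 ≤ b) (hC : 2 ≤ C) {i i' : ℕ}
    (hi : i < K.length) (hi' : i' < K.length) {q q' : ℕ} (hq : q < 2 * K.getD i 0 - 1)
    (hq' : q' < 2 * K.getD i' 0 - 1) (ho : Opp q q') : Sep (l i q) (r i q) (l i' q') (r i' q') := by
  by_contra hs
  unfold Pool.Agent.TH656.Bx.Sep at hs
  push Not at hs
  have h1 := h.le i hi q hq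
  have h2 := h.le i' hi' q' hq'
  obtain ⟨m, hm, h3, h4, h5⟩ := h.cov hb hC hi hq (t := max (l i q) (l i' q')) (le_max_left _ _)
    (max_le h1 hs.1)
  have h6 : ok C m q' = true := by
    by_contra hok
    rw [Bool.not_eq_true] at hok
    have h7 := le_max_right (l i q) (l i' q')
    have h8 : max (l i q) (l i' q') ≤ r i' q' := max_le hs.2 h2
    rcases h.avoid i' hi' q' hq' m hm.le hok with h9 | h9 <;> linarith
  rw [ok_iff] at h5 h6
  obtain ⟨o1, o2, o3⟩ := ho
  omega

theorem Conf.item (h : Conf K b C L R lz rz l r) (hb : 1 ≤ b) (hC : 2 ≤ C) {i : ℕ}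
    (hi : i < K.length) : PathRep (2 * K.getD i 0 - 1) (l i) (r i) where
  le := h.le i hi
  meet := h.meet i hi
  sep := fun p q hpq hq => by
    by_cases ho : Opp p q
    · exact h.opp hb hC hi hi (by omega) hq ho
    · exact h.sep i hi p q hpq hq ho

theorem Conf.items' (h : Conf K b C L R lz rz l r) (hb : 1 ≤ b) (hC : 2 ≤ C) {i i' : ℕ}
    (hi : i < K.length) (hi' : i' < K.length) (hii : i ≠ i') {q q' : ℕ}
    (hq : q < 2 * K.getD i 0 - 1) (hq' : q' < 2 * K.getD i' 0 - 1) :
    Sep (l i q) (r i q) (l i' q') (r i' q') := by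
  by_cases ho : Opp q q'
  · exact h.opp hb hC hi hi' hq hq' ho
  · exact h.items i hi i' hi' hii q hq q' hq' ho

/-- the item vertex with index `2 t` meets the frame vertex `m` -/
def At (l r : ℕ → ℕ → ℝ) (L R : ℕ → ℝ) (i t m : ℕ) : Prop := l i (2 * t) ≤ R m ∧ L m ≤ r i (2 * t)

theorem Conf.at_ok (h : Conf K b C L R lz rz l r) {i : ℕ} (hi : i < K.length) {t m : ℕ}
    (ht : t < K.getD i 0) (hm : m ≤ b * (C + 1)) (ha : At l r L R i t m) : ok C m (2 * t) = true := by
  by_contra hok
  rw [Bool.not_eq_true] at hok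
  obtain ⟨h1, h2⟩ := ha
  rcases h.avoid i hi (2 * t) (by omega) m hm hok with h3 | h3 <;> linarith

theorem Conf.exists_at (h : Conf K b C L R lz rz l r) (hb : 1 ≤ b) (hC : 2 ≤ C) {i : ℕ}
    (hi : i < K.length) {t : ℕ} (ht : t < K.getD i 0) :
    ∃ m < b * (C + 1), At l r L R i t m := by
  have h1 := h.le i hi (2 * t) (by omega)
  obtain ⟨m, hm, h2, h3, _⟩ := h.cov hb hC hi (q := 2 * t) (by omega) le_rfl h1
  exact ⟨m, hm, by linarith, by linarith⟩

theorem Conf.at_lt (h : Conf K b C L R lz rz l r) (hb : 1 ≤ b) (hC : 2 ≤ C) {i : ℕ}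
    (hi : i < K.length) {t m m' : ℕ} (ht : t < K.getD i 0) (hm' : m' < b * (C + 1))
    (ha : At l r L R i t m) (ha' : At l r L R i t m') (hlt : m < m') : False := by
  have hM := hNC hb hC
  have h1 : At l r L R i t (m + 1) := by
    rcases Nat.lt_or_ge m' (m + 2) with h2 | h2
    · have e : m' = m + 1 := by omega
      rw [← e]; exact ha'
    · obtain ⟨a1, a2⟩ := ha
      obtain ⟨a3, a4⟩ := ha'
      have h3 := h.frame.fmono (by omega) h.or (p := m) (q := m') h2 (by omega)
      have h4 := (h.frame.meet m (by omega)).2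
      have h5 := h.frame.fmono (by omega) h.or (p := m) (q := m + 2) le_rfl (by omega)
      have h6 := (h.frame.meet (m + 1) (by omega)).2
      constructor
      · linarith
      · linarith
  have h2 := h.at_ok hi ht (by omega) ha
  have h3 := h.at_ok hi ht (by omega) h1
  rw [ok_iff] at h2 h3
  have h4 : (m + 1) % (C + 1) = m % (C + 1) + 1 := by
    have e1 := Nat.div_add_mod m (C + 1)
    have e2 := Nat.mod_lt m (show 0 < C + 1 by omega)
    rcases Nat.lt_or_ge (m % (C + 1) + 1) (C + 1) with h5 | h5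
    · rw [Nat.add_mod, Nat.mod_eq_of_lt (show 1 < C + 1 by omega), Nat.mod_eq_of_lt h5]
    · exfalso
      apply h3.1
      have e3 : m % (C + 1) = C := by omega
      rw [Nat.add_mod, Nat.mod_eq_of_lt (show 1 < C + 1 by omega), e3, Nat.mod_self]
  omega

theorem Conf.at_unique (h : Conf K b C L R lz rz l r) (hb : 1 ≤ b) (hC : 2 ≤ C) {i : ℕ}
    (hi : i < K.length) {t m m' : ℕ} (ht : t < K.getD i 0) (hm : m < b * (C + 1))
    (hm' : m' < b * (C + 1)) (ha : At l r L R i t m) (ha' : At l r L R i t m') : m = m' := by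
  rcases lt_trichotomy m m' with h1 | h1 | h1
  · exact (h.at_lt hb hC hi ht hm' ha ha' h1).elim
  · exact h1
  · exact (h.at_lt hb hC hi ht hm ha' ha h1).elim

theorem Conf.at_succ (h : Conf K b C L R lz rz l r) {i : ℕ} (hi : i < K.length) {t m : ℕ}
    (ht : t + 1 < K.getD i 0) (hm : m < b * (C + 1)) (ha : At l r L R i t m)
    (ha' : At l r L R i (t + 1) m) : False := by
  have h2 := h.at_ok hi (by omega) hm.le ha
  have h3 := h.at_ok hi ht hm.le ha'
  rw [ok_iff] at h2 h3
  omega

/-- different vertices of even index of an item meet different frame vertices -/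
theorem Conf.at_ne (h : Conf K b C L R lz rz l r) (hb : 1 ≤ b) (hC : 2 ≤ C) {i : ℕ}
    (hi : i < K.length) {t t' m : ℕ} (ht' : t' < K.getD i 0) (hm : m < b * (C + 1))
    (htt : t < t') (ha : At l r L R i t m) (ha' : At l r L R i t' m) : False := by
  rcases Nat.lt_or_ge t' (t + 2) with h1 | h1
  · have e : t' = t + 1 := by omega
    subst e
    exact h.at_succ hi ht' hm ha ha'
  · refine h.at_succ hi (by omega) hm ha ?_
    have h2 := h.le i hi (2 * (t + 1)) (by omega)
    obtain ⟨a1, a2⟩ := ha
    obtain ⟨a3, a4⟩ := ha'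
    have e1 := h.le i hi (2 * t) (by omega)
    have e2 := h.le i hi (2 * t') (by omega)
    rcases pathRep_between (h.item hb hC hi) (p := 2 * t) (q := 2 * (t + 1)) (s := 2 * t')
      (by omega) (by omega) (by omega) with ⟨h3, h4⟩ | ⟨h3, h4⟩
    · constructor <;> linarith
    · constructor <;> linarith

/-- an item vertex to the left of another one -/
theorem Conf.left (h : Conf K b C L R lz rz l r) (hb : 1 ≤ b) (hC : 2 ≤ C) {i j : ℕ}
    (hj : j < K.length) {t s m m' : ℕ}
    (hs : s < K.getD j 0) (hm' : m' < b * (C + 1)) (ha : At l r L R i t m')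
    (ha' : At l r L R j s m) (hlt : r i (2 * t) < l j (2 * s)) (hmm : m < m') : False := by
  have hM := hNC hb hC
  obtain ⟨a1, a2⟩ := ha
  obtain ⟨a3, a4⟩ := id ha'
  have h0 := h.le j hj (2 * s) (by omega)
  rcases Nat.lt_or_ge m' (m + 2) with h2 | h2
  · have e : m' = m + 1 := by omega
    subst e
    refine h.at_lt hb hC hj hs hm' ha' ⟨?_, ?_⟩ (by omega)
    · have h5 := h.frame.fmono (by omega) h.or (p := m) (q := m + 2) le_rfl (by omega)
      have h6 := (h.frame.meet (m + 1) (by omega)).2
      linarith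
    · linarith
  · have h3 := h.frame.fmono (by omega) h.or (p := m) (q := m') h2 (by omega)
    linarith

theorem Conf.disj (h : Conf K b C L R lz rz l r) (hb : 1 ≤ b) (hC : 2 ≤ C) {i j : ℕ}
    (hi : i < K.length) (hj : j < K.length) (hij : i ≠ j) {t t' s s' m m₁ m₂ : ℕ}
    (ht : t < K.getD i 0) (ht' : t' < K.getD i 0) (hs : s < K.getD j 0) (hs' : s' < K.getD j 0)
    (hm₁ : m₁ < b * (C + 1)) (hm₂ : m₂ < b * (C + 1))
    (ha : At l r L R i t m) (ha' : At l r L R i t' m₁) (hb' : At l r L R j s m)
    (hb'' : At l r L R j s' m₂) (h1 : m < m₁) (h2 : m < m₂) : False := by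
  have hside := (h.item hb hC hi).side (h.le j hj (2 * s) (by omega)) (fun q hq =>
    h.items' hb hC hi hj hij hq (by omega))
  rcases hside with h3 | h3
  · exact h.left hb hC hj hs hm₁ ha' hb' (h3 _ (by omega)) h1
  · have hside' := (h.item hb hC hj).side (h.le i hi (2 * t) (by omega)) (fun q hq =>
      h.items' hb hC hj hi hij.symm hq (by omega))
    rcases hside' with h4 | h4
    · exact h.left hb hC hi ht hm₂ hb'' ha (h4 _ (by omega)) h2
    · have h5 := h3 (2 * t) (by omega)
      have h6 := h4 (2 * s) (by omega)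
      have h7 := h.le i hi (2 * t) (by omega)
      have h8 := h.le j hj (2 * s) (by omega)
      linarith

/-- an item does not cross a separator -/
theorem Conf.block (h : Conf K b C L R lz rz l r) (hb : 1 ≤ b) (hC : 2 ≤ C) {i : ℕ}
    (hi : i < K.length) {t t' m m' : ℕ} (ht : t < K.getD i 0) (ht' : t' < K.getD i 0)
    (hm : m < b * (C + 1)) (hm' : m' < b * (C + 1)) (ha : At l r L R i t m)
    (ha' : At l r L R i t' m') (hlt : m / (C + 1) < m' / (C + 1)) : False := by
  have hM := hNC hb hC
  set s := (C + 1) * (m' / (C + 1)) with hs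
  have e1 := Nat.div_add_mod m (C + 1)
  have e2 := Nat.div_add_mod m' (C + 1)
  have e3 := Nat.mod_lt m (show 0 < C + 1 by omega)
  have o1 := (ok_iff.1 (h.at_ok hi ht hm.le ha)).1
  have o2 := (ok_iff.1 (h.at_ok hi ht' hm'.le ha')).1
  have hsm' : s + 1 ≤ m' := by omega
  have hms : m + 1 ≤ s := by
    have h1 : (C + 1) * (m / (C + 1) + 1) ≤ s := Nat.mul_le_mul_left _ hlt
    have h2 : (C + 1) * (m / (C + 1) + 1) = (C + 1) * (m / (C + 1)) + (C + 1) := by ring
    omega
  have hsN : s < b * (C + 1) := by omega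
  have hsz : ∀ q, ok C s q = false := by
    intro q
    rw [← Bool.not_eq_true, ok_iff]
    intro hc
    exact hc.1 (by rw [hs]; exact Nat.mul_mod_right _ _)
  have hside := (h.item hb hC hi).side (h.frame.le s (by omega)) (fun q hq =>
    h.avoid i hi q hq s hsN.le (hsz q))
  -- `R m ≤ R s` and `L s ≤ L m'` in the appropriate sense
  obtain ⟨a1, a2⟩ := id ha
  obtain ⟨a3, a4⟩ := id ha'
  have hl := h.le i hi (2 * t) (by omega)
  have hl' := h.le i hi (2 * t') (by omega)
  rcases hside with h3 | h3
  · -- everything is to the left of `f_s`, but `m' > s`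
    have h4 := h3 (2 * t') (by omega)
    rcases Nat.lt_or_ge m' (s + 2) with h5 | h5
    · have e : m' = s + 1 := by omega
      -- `r i (2t') < L s ≤ R ..`; the frame vertex `s - 1`, if `L (s+1) ≤ r i (2t') < L s`
      rw [e] at a4
      have h6 := h.frame.fmono (by omega) h.or (p := s - 1) (q := s + 1) (by omega) (by omega)
      have h7 := (h.frame.meet (s - 1) (by omega)).2
      rw [Nat.sub_add_cancel (by omega : 1 ≤ s)] at h7
      linarith
    · have h6 := h.frame.fmono (by omega) h.or (p := s) (q := m') h5 (by omega)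
      have h7 := h.frame.le s (by omega)
      linarith
  · have h4 := h3 (2 * t) (by omega)
    rcases Nat.lt_or_ge s (m + 2) with h5 | h5
    · have e : s = m + 1 := by omega
      have h6 := h.frame.fmono (by omega) h.or (p := m) (q := m + 2) le_rfl (by omega)
      have h7 := (h.frame.meet (m + 1) (by omega)).2
      rw [e] at h4
      linarith
    · have h6 := h.frame.fmono (by omega) h.or (p := m) (q := s) h5 (by omega)
      have h7 := h.frame.le s (by omega)
      linarith

/-- **Packing from a configuration on the line.** -/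
theorem Conf.pack (h : Conf K b C L R lz rz l r) (hb : 1 ≤ b) (hC : 2 ≤ C) :
    ∃ f : ℕ → ℕ, (∀ i < K.length, f i < b) ∧
      ∀ j < b, ∑ i ∈ (Finset.range K.length).filter (fun i => f i = j), (K.getD i 0 - 1) ≤ C := by
  classical
  have hex : ∀ i t, ∃ m, i < K.length → t < K.getD i 0 →
      m < b * (C + 1) ∧ At l r L R i t m := by
    intro i t
    by_cases hi : i < K.length
    · by_cases ht : t < K.getD i 0
      · obtain ⟨m, h1, h2⟩ := h.exists_at hb hC hi ht
        exact ⟨m, fun _ _ => ⟨h1, h2⟩⟩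
      · exact ⟨0, fun _ h' => absurd h' ht⟩
    · exact ⟨0, fun h' => absurd h' hi⟩
  choose g hg using hex
  refine ⟨fun i => if 0 < K.getD i 0 then g i 0 / (C + 1) else 0, ?_, ?_⟩
  · intro i hi
    dsimp only
    split_ifs with h0
    · exact Nat.div_lt_of_lt_mul (by rw [mul_comm]; exact (hg i 0 hi h0).1)
    · omega
  · intro j _
    -- the frame vertices of an item
    let S : ℕ → Finset ℕ := fun i => (Finset.range (K.getD i 0)).image (g i)
    let T : ℕ → Finset ℕ := fun i => (S i).filter (fun m => ∃ m' ∈ S i, m < m')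
    have hcard : ∀ i < K.length, (S i).card = K.getD i 0 := by
      intro i hi
      rw [Finset.card_image_of_injOn, Finset.card_range]
      intro t ht t' ht' he
      simp only [Finset.coe_range, Set.mem_Iio] at ht ht'
      obtain ⟨m1, a1⟩ := hg i t hi ht
      obtain ⟨m2, a2⟩ := hg i t' hi ht'
      rcases lt_trichotomy t t' with h1 | h1 | h1
      · exact (h.at_ne hb hC hi ht' m1 h1 a1 (he ▸ a2)).elim
      · exact h1
      · exact (h.at_ne hb hC hi ht m2 h1 a2 (he ▸ a1)).elim
    have hT : ∀ i < K.length, K.getD i 0 - 1 ≤ (T i).card := by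
      intro i hi
      rcases Nat.eq_zero_or_pos (K.getD i 0) with h0 | h0
      · omega
      · have hne : (S i).Nonempty := by
          rw [← Finset.card_pos, hcard i hi]; exact h0
        have hsub : (S i).erase ((S i).max' hne) ⊆ T i := by
          intro m hm
          rw [Finset.mem_erase] at hm
          refine Finset.mem_filter.2 ⟨hm.2, (S i).max' hne, Finset.max'_mem _ _, ?_⟩
          exact lt_of_le_of_ne (Finset.le_max' _ _ hm.2) hm.1
        calc K.getD i 0 - 1 = ((S i).erase ((S i).max' hne)).card := by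
              rw [Finset.card_erase_of_mem (Finset.max'_mem _ _), hcard i hi]
          _ ≤ (T i).card := Finset.card_le_card hsub
    have hdisj : ∀ i < K.length, ∀ i' < K.length, i ≠ i' → Disjoint (T i) (T i') := by
      intro i hi i' hi' hii
      rw [Finset.disjoint_left]
      intro m hm hm'
      simp only [T, S, Finset.mem_filter, Finset.mem_image, Finset.mem_range] at hm hm'
      obtain ⟨⟨t, ht, e1⟩, m1, ⟨t1, ht1, e2⟩, hlt1⟩ := hm
      obtain ⟨⟨s, hs, e3⟩, m2, ⟨s1, hs1, e4⟩, hlt2⟩ := hm'
      refine h.disj hb hC hi hi' hii ht ht1 hs hs1 (hg i t1 hi ht1).1 (hg i' s1 hi' hs1).1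
        (m := m) (by rw [← e1]; exact (hg i t hi ht).2) (hg i t1 hi ht1).2
        (by rw [← e3]; exact (hg i' s hi' hs).2) (hg i' s1 hi' hs1).2 (by omega) (by omega)
    have hbin : ∀ i < K.length, (if 0 < K.getD i 0 then g i 0 / (C + 1) else 0) = j →
        T i ⊆ (Finset.Icc 1 C).image (fun x => (C + 1) * j + x) := by
      intro i hi hj m hm
      simp only [T, S, Finset.mem_filter, Finset.mem_image, Finset.mem_range] at hm
      obtain ⟨⟨t, ht, e1⟩, -⟩ := hm
      have h0 : 0 < K.getD i 0 := by omega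
      rw [if_pos h0] at hj
      obtain ⟨m1, a1⟩ := hg i 0 hi h0
      obtain ⟨m2, a2⟩ := hg i t hi ht
      have hdiv : g i t / (C + 1) = j := by
        rw [← hj]
        by_contra hne
        rcases lt_or_gt_of_ne hne with h1 | h1
        · exact h.block hb hC hi ht h0 m2 m1 a2 a1 h1
        · exact h.block hb hC hi h0 ht m1 m2 a1 a2 h1
      have o := (ok_iff.1 (h.at_ok hi ht m2.le a2)).1
      have e2 := Nat.div_add_mod (g i t) (C + 1)
      have e3 := Nat.mod_lt (g i t) (show 0 < C + 1 by omega)
      rw [hdiv] at e2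
      rw [Finset.mem_image]
      exact ⟨g i t % (C + 1), Finset.mem_Icc.2 ⟨by omega, by omega⟩, by rw [← e1]; exact e2⟩
    calc ∑ i ∈ (Finset.range K.length).filter
          (fun i => (if 0 < K.getD i 0 then g i 0 / (C + 1) else 0) = j), (K.getD i 0 - 1)
        ≤ ∑ i ∈ (Finset.range K.length).filter
          (fun i => (if 0 < K.getD i 0 then g i 0 / (C + 1) else 0) = j), (T i).card := by
          refine Finset.sum_le_sum fun i hi => ?_
          rw [Finset.mem_filter, Finset.mem_range] at hi
          exact hT i hi.1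
      _ = (((Finset.range K.length).filter
          (fun i => (if 0 < K.getD i 0 then g i 0 / (C + 1) else 0) = j)).biUnion T).card := by
          rw [Finset.card_biUnion]
          intro i hi i' hi' hii
          rw [Finset.mem_coe, Finset.mem_filter, Finset.mem_range] at hi hi'
          exact hdisj i hi.1 i' hi'.1 hii
      _ ≤ ((Finset.Icc 1 C).image (fun x => (C + 1) * j + x)).card := by
          refine Finset.card_le_card ?_
          intro m hm
          rw [Finset.mem_biUnion] at hm
          obtain ⟨i, hi, hm⟩ := hm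
          rw [Finset.mem_filter, Finset.mem_range] at hi
          exact hbin i hi.1 hi.2 hm
      _ ≤ (Finset.Icc 1 C).card := Finset.card_image_le
      _ = C := by simp

end

end Pool.Agent.KS6_79.BX
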