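import Pool.Graph.R_seed8.TH656.Bx.Constr
import Pool.Agent.KS6_79.BX.Line

/-!
# The graph for dimension three
-/

set_option autoImplicit false

namespace Pool.Agent.KS6_79.BX

open Pool.Agent.TH656 Pool.Agent.TH656.Bx

/-- the hub `(t, j)` and the frame vertex `m` are not adjacent -/
def nf (C m t j : ℕ) : Bool :=
  (decide (t = 0) && decide (j = 0) && !decide (m % (C + 1) = 0) && decide (m % (C + 1) % 2 = 0)) ||
  (decide (t = 0) && decide (j = 3) && decide (m % (C + 1) % 2 = 1)) ||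
  (decide (t = 1) && decide (j = 2) && !decide (m % (C + 1) = 0))

/-- the hub `(t, j)` and the item vertex with index `q` are not adjacent -/
def ni (q t j : ℕ) : Bool :=
  (decide (t = 0) && decide (q % 4 = 0) && decide (j < 2)) ||
  (decide (t = 0) && decide (q % 4 = 2) && decide (2 ≤ j)) ||
  (decide (t = 1) && decide (q % 2 = 1) && decide (j = 0))

theorem nf_iff {C m t j : ℕ} : nf C m t j = true ↔
    (t = 0 ∧ j = 0 ∧ m % (C + 1) ≠ 0 ∧ m % (C + 1) % 2 = 0) ∨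
    (t = 0 ∧ j = 3 ∧ m % (C + 1) % 2 = 1) ∨ (t = 1 ∧ j = 2 ∧ m % (C + 1) ≠ 0) := by
  simp [nf, and_assoc, or_assoc]

theorem ni_iff {q t j : ℕ} : ni q t j = true ↔
    (t = 0 ∧ q % 4 = 0 ∧ j < 2) ∨ (t = 0 ∧ q % 4 = 2 ∧ 2 ≤ j) ∨ (t = 1 ∧ q % 2 = 1 ∧ j = 0) := by
  simp [ni, and_assoc, or_assoc]

/-- The adjacency (in one direction). Kinds of vertices: `(0, t, j)` hubs, `(1, 0, 0)` the vertex
`z`, `(2, m, 0)` the frame, `(3, i, q)` the items. -/
def ad (b C : ℕ) (u v : Vt) : Bool :=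
  (decide (u.1 = 0) && decide (v.1 = 0) && !decide (u.2.1 = v.2.1)) ||
  (decide (u.1 = 0) && decide (v.1 = 1)) ||
  (decide (u.1 = 0) && decide (v.1 = 2) && !(nf C v.2.1 u.2.1 u.2.2)) ||
  (decide (u.1 = 0) && decide (v.1 = 3) && !(ni v.2.2 u.2.1 u.2.2)) ||
  (decide (u.1 = 1) && decide (v.1 = 2) && decide (0 < v.2.1) &&
    decide (v.2.1 < b * (C + 1))) ||
  (decide (u.1 = 1) && decide (v.1 = 3)) ||
  (decide (u.1 = 2) && decide (v.1 = 2) && decide (v.2.1 = u.2.1 + 1)) ||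
  (decide (u.1 = 3) && decide (v.1 = 3) && decide (v.2.1 = u.2.1) && decide (v.2.2 = u.2.2 + 1))

/-- The hubs and `z`. -/
def hubs : List Vt :=
  [(0, 0, 0), (0, 0, 1), (0, 0, 2), (0, 0, 3), (0, 1, 0), (0, 1, 1), (0, 1, 2), (1, 0, 0)]

/-- The list of all vertices. -/
def vl (K : List ℕ) (b C : ℕ) : List Vt :=
  hubs ++ (List.range (b * (C + 1) + 1)).map (fun m => ((2, m, 0) : Vt)) ++
    (List.range K.length).flatMap
      (fun i => (List.range (2 * K.getD i 0 - 1)).map (fun q => ((3, i, q) : Vt)))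

/-- the hubs -/
def IsHub (t j : ℕ) : Prop := (t = 0 ∧ j < 4) ∨ (t = 1 ∧ j < 3)

theorem mem_vl {K : List ℕ} {b C : ℕ} {v : Vt} : v ∈ vl K b C ↔
    (v.1 = 0 ∧ IsHub v.2.1 v.2.2) ∨ v = (1, 0, 0) ∨
    (v.1 = 2 ∧ v.2.1 ≤ b * (C + 1) ∧ v.2.2 = 0) ∨
    (v.1 = 3 ∧ v.2.1 < K.length ∧ v.2.2 < 2 * K.getD v.2.1 0 - 1) := by
  obtain ⟨k, i, j⟩ := v
  have h0 : ((k, i, j) : Vt) ∈ hubs ↔ (k = 0 ∧ IsHub i j) ∨ (k, i, j) = ((1, 0, 0) : Vt) := by
    simp only [hubs, List.mem_cons, List.not_mem_nil, or_false, Prod.mk.injEq, IsHub]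
    omega
  rw [vl, List.mem_append, List.mem_append, h0]
  simp only [List.mem_map, List.mem_range, List.mem_flatMap, Prod.mk.injEq]
  constructor
  · rintro ((h | h) | h)
    · exact h.elim Or.inl (fun h => Or.inr (Or.inl h))
    · obtain ⟨m, h1, h2, h3, h4⟩ := h
      right; right; left
      exact ⟨h2.symm, by omega, h4.symm⟩
    · obtain ⟨i', h1, q, h2, h3, h4, h5⟩ := h
      subst h4; subst h5
      right; right; right
      exact ⟨h3.symm, h1, h2⟩
  · rintro (h | h | h | h)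
    · exact Or.inl (Or.inl (Or.inl h))
    · exact Or.inl (Or.inl (Or.inr h))
    · exact Or.inl (Or.inr ⟨i, by omega, h.1.symm, rfl, h.2.2.symm⟩)
    · exact Or.inr ⟨i, h.2.1, j, h.2.2, h.1.symm, rfl, rfl⟩

theorem nodup_vl (K : List ℕ) (b C : ℕ) : (vl K b C).Nodup := by
  rw [vl, List.nodup_append, List.nodup_append]
  refine ⟨⟨by decide, ?_, ?_⟩, ?_, ?_⟩
  · exact List.Nodup.map (fun x y h => by simpa using h) List.nodup_range
  · intro x hx y hy hxy
    subst hxy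
    simp only [List.mem_map, List.mem_range] at hy
    obtain ⟨m, _, rfl⟩ := hy
    simp [hubs] at hx
  · rw [List.nodup_flatMap]
    constructor
    · intro i _
      exact List.Nodup.map (fun x y h => by simpa using h) List.nodup_range
    · refine List.Nodup.pairwise_of_forall_ne List.nodup_range ?_
      intro i _ i' _ hii
      rw [Function.onFun, List.disjoint_left]
      intro x hx hx'
      simp only [List.mem_map] at hx hx'
      obtain ⟨q, _, rfl⟩ := hx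
      obtain ⟨q', _, h⟩ := hx'
      simp only [Prod.mk.injEq] at h
      exact hii h.2.1.symm
  · intro x hx y hy hxy
    subst hxy
    simp only [List.mem_map, List.mem_range, List.mem_flatMap] at hy
    obtain ⟨i, _, q, _, rfl⟩ := hy
    simp [hubs] at hx

/-- The graph of the bin packing instance. -/
def gr (K : List ℕ) (b C : ℕ) : Pool.Agent.H692R2.FinGraph := lgraph (vl K b C) (ad b C)

/-- Adjacency in any direction. -/
def Adj (b C : ℕ) (u v : Vt) : Prop := ad b C u v = true ∨ ad b C v u = true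

theorem Adj.symm {b C : ℕ} {u v : Vt} (h : Adj b C u v) : Adj b C v u := Or.symm h

section

variable {K : List ℕ} {b C : ℕ}

theorem adj_hh {t j s j' : ℕ} : Adj b C (0, t, j) (0, s, j') ↔ t ≠ s := by
  simp only [Adj, ad]
  simp
  exact fun h => Ne.symm h

theorem adj_hz {t j : ℕ} : Adj b C (0, t, j) (1, 0, 0) := by
  simp [Adj, ad]

theorem adj_hf {t j m : ℕ} : Adj b C (0, t, j) (2, m, 0) ↔ ¬ nf C m t j = true := by
  simp only [Adj, ad]
  cases nf C m t j <;> simp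

theorem adj_hi {t j i q : ℕ} : Adj b C (0, t, j) (3, i, q) ↔ ¬ ni q t j = true := by
  simp only [Adj, ad]
  cases ni q t j <;> simp

theorem adj_zf {m : ℕ} : Adj b C (1, 0, 0) (2, m, 0) ↔ 0 < m ∧ m < b * (C + 1) := by
  simp only [Adj, ad]
  simp

theorem adj_zi {i q : ℕ} : Adj b C (1, 0, 0) (3, i, q) := by
  simp [Adj, ad]

theorem adj_ff {m m' : ℕ} : Adj b C (2, m, 0) (2, m', 0) ↔ m' = m + 1 ∨ m = m' + 1 := by
  simp only [Adj, ad]
  simp

theorem adj_fi {m i q : ℕ} : ¬ Adj b C (2, m, 0) (3, i, q) := by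
  simp only [Adj, ad]
  simp

theorem adj_ii {i q i' q' : ℕ} : Adj b C (3, i, q) (3, i', q') ↔
    i = i' ∧ (q' = q + 1 ∨ q = q' + 1) := by
  simp only [Adj, ad]
  simp
  omega

theorem Adj.ne {u v : Vt} (h : Adj b C u v) : u ≠ v := by
  rintro rfl
  obtain ⟨k, i, j⟩ := u
  simp only [Adj, ad] at h
  simp at h
  omega

theorem mem_hub {t j : ℕ} (h : IsHub t j) : ((0, t, j) : Vt) ∈ vl K b C :=
  mem_vl.2 (Or.inl ⟨rfl, h⟩)

theorem mem_z : ((1, 0, 0) : Vt) ∈ vl K b C := mem_vl.2 (Or.inr (Or.inl rfl))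

theorem mem_frame {m : ℕ} (hm : m ≤ b * (C + 1)) : ((2, m, 0) : Vt) ∈ vl K b C :=
  mem_vl.2 (Or.inr (Or.inr (Or.inl ⟨rfl, hm, rfl⟩)))

theorem mem_item {i q : ℕ} (hi : i < K.length) (hq : q < 2 * K.getD i 0 - 1) :
    ((3, i, q) : Vt) ∈ vl K b C :=
  mem_vl.2 (Or.inr (Or.inr (Or.inr ⟨rfl, hi, hq⟩)))

end

end Pool.Agent.KS6_79.BX
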