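import Pool.Graph.R_seed8.TH656.Bx.Sound
import Pool.Agent.KS6_79.BX.Constr

/-!
# A box representation in dimension three gives a packing
-/

set_option autoImplicit false

namespace Pool.Agent.KS6_79.BX

open Pool.Agent.TH656 Pool.Agent.TH656.Bx

section

variable {K : List ℕ} {b C : ℕ}

/-- A box representation in dimension three. -/
structure Rep (K : List ℕ) (b C : ℕ) (L R : Vt → Fin 3 → ℝ) : Prop where
  le : ∀ v ∈ vl K b C, ∀ k, L v k ≤ R v k
  adj : ∀ u ∈ vl K b C, ∀ v ∈ vl K b C, u ≠ v →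
    (Adj b C u v ↔ ∀ k, L u k ≤ R v k ∧ L v k ≤ R u k)

/-- separated in dimension `k` -/
def S (L R : Vt → Fin 3 → ℝ) (k : Fin 3) (u v : Vt) : Prop := Sep (L u k) (R u k) (L v k) (R v k)

variable {L R : Vt → Fin 3 → ℝ}

theorem Rep.meet (h : Rep K b C L R) {u v : Vt} (hu : u ∈ vl K b C) (hv : v ∈ vl K b C)
    (hadj : Adj b C u v) (k : Fin 3) : L u k ≤ R v k ∧ L v k ≤ R u k :=
  (h.adj u hu v hv hadj.ne).1 hadj k

theorem Rep.exists_sep (h : Rep K b C L R) {u v : Vt} (hu : u ∈ vl K b C) (hv : v ∈ vl K b C)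
    (huv : u ≠ v) (hadj : ¬ Adj b C u v) : ∃ k, S L R k u v := by
  rw [h.adj u hu v hv huv] at hadj
  push Not at hadj
  obtain ⟨k, hk⟩ := hadj
  refine ⟨k, ?_⟩
  unfold S Pool.Agent.TH656.Bx.Sep
  by_cases h1 : L u k ≤ R v k
  · exact Or.inl (hk h1)
  · exact Or.inr (not_le.1 h1)

theorem Rep.cross (h : Rep K b C L R) {u u' v v' : Vt} (hu : u ∈ vl K b C) (hu' : u' ∈ vl K b C)
    (hv : v ∈ vl K b C) (hv' : v' ∈ vl K b C) {k k' : Fin 3} (h1 : S L R k u u')
    (h2 : S L R k' v v') (m1 : Adj b C u v) (m2 : Adj b C u v') (m3 : Adj b C u' v)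
    (m4 : Adj b C u' v') : k ≠ k' := by
  rintro rfl
  exact no_c4 h1 h2 (h.meet hu hv m1 k) (h.meet hu hv' m2 k) (h.meet hu' hv m3 k)
    (h.meet hu' hv' m4 k)

theorem fin3 : ∀ k0 k1 kx k : Fin 3, k0 ≠ k1 → k0 ≠ kx → k1 ≠ kx → k = kx ∨ k = k0 ∨ k = k1 := by
  decide

theorem nf_sep {m t j : ℕ} (hm : m % (C + 1) = 0) : ¬ nf C m t j = true := by
  rw [nf_iff, hm]
  omega

theorem hub_zero {t : ℕ} (ht : t < 2) : IsHub t 0 ∧ IsHub t 1 ∧ IsHub t 2 := by
  unfold IsHub
  omega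

/-- The dimension of the line. -/
theorem Rep.exists_kx (h : Rep K b C L R) (hb : 1 ≤ b) (hC : 2 ≤ C) : ∃ kx : Fin 3,
    S L R kx (2, 0, 0) (2, b * (C + 1), 0) ∧
    ∀ u ∈ vl K b C, ∀ v ∈ vl K b C, u ≠ v → ¬ Adj b C u v →
      (∀ t < 2, ∃ j j', IsHub t j ∧ IsHub t j' ∧ j ≠ j' ∧ Adj b C (0, t, j) u ∧
        Adj b C (0, t, j') u ∧ Adj b C (0, t, j) v ∧ Adj b C (0, t, j') v) → S L R kx u v := by
  have hM := hNC hb hC
  have hf0 : ((2, 0, 0) : Vt) ∈ vl K b C := mem_frame (Nat.zero_le _)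
  have hfM : ((2, b * (C + 1), 0) : Vt) ∈ vl K b C := mem_frame le_rfl
  have hs0 : ∀ t j, Adj b C (0, t, j) (2, 0, 0) := fun t j =>
    adj_hf.2 (nf_sep (by simp))
  have hsM : ∀ t j, Adj b C (0, t, j) (2, b * (C + 1), 0) := fun t j =>
    adj_hf.2 (nf_sep (by simp))
  obtain ⟨kx, hkx⟩ := h.exists_sep hf0 hfM (by
    intro hc
    simp only [Prod.mk.injEq] at hc
    omega) (by
    rw [adj_ff]
    omega)
  have hk : ∀ t, ∃ k, t < 2 → S L R k (0, t, 0) (0, t, 1) := by
    intro t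
    by_cases ht : t < 2
    · obtain ⟨k, hk⟩ := h.exists_sep (mem_hub (hub_zero ht).1)
        (mem_hub (hub_zero ht).2.1) (by simp) (by rw [adj_hh]; simp)
      exact ⟨k, fun _ => hk⟩
    · exact ⟨0, fun hc => absurd hc ht⟩
  choose kk hkk using hk
  have hd : ∀ s < 2, ∀ t < 2, s ≠ t → ∀ j, IsHub s j → ∀ j', IsHub s j' → ∀ k,
      S L R k (0, s, j) (0, s, j') → k ≠ kk t := by
    intro s hs t ht hne j hj j' hj' k hk
    exact h.cross (mem_hub hj) (mem_hub hj') (mem_hub (hub_zero ht).1)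
      (mem_hub (hub_zero ht).2.1) hk (hkk t ht) (adj_hh.2 hne) (adj_hh.2 hne) (adj_hh.2 hne)
      (adj_hh.2 hne)
  have hdx : ∀ t, ∀ j, IsHub t j → ∀ j', IsHub t j' → ∀ k, S L R k (0, t, j) (0, t, j') →
      k ≠ kx := by
    intro t j hj j' hj' k hk
    exact h.cross (mem_hub hj) (mem_hub hj') hf0 hfM hk hkx (hs0 _ _) (hsM _ _) (hs0 _ _) (hsM _ _)
  have h01 : kk 0 ≠ kk 1 := hd 0 (by norm_num) 1 (by norm_num) (by norm_num) 0
    (hub_zero (by norm_num)).1 1 (hub_zero (by norm_num)).2.1 _ (hkk 0 (by norm_num))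
  have h0x : ∀ t < 2, kk t ≠ kx := fun t ht => hdx t 0 (hub_zero ht).1 1
    (hub_zero ht).2.1 _ (hkk t ht)
  have hall : ∀ k, k = kx ∨ ∃ t < 2, k = kk t := by
    intro k
    rcases fin3 (kk 0) (kk 1) kx k h01 (h0x 0 (by norm_num)) (h0x 1 (by norm_num)) with
      h1 | h1 | h1
    · exact Or.inl h1
    · exact Or.inr ⟨0, by norm_num, h1⟩
    · exact Or.inr ⟨1, by norm_num, h1⟩
  have hfull : ∀ t < 2, ∀ j, IsHub t j → ∀ j', IsHub t j' → j ≠ j' →
      S L R (kk t) (0, t, j) (0, t, j') := by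
    intro t ht j hj j' hj' hne
    obtain ⟨k, hk⟩ := h.exists_sep (mem_hub hj) (mem_hub hj') (by
      intro hc
      simp only [Prod.mk.injEq] at hc
      exact hne hc.2.2) (by rw [adj_hh]; simp)
    rcases hall k with h1 | ⟨s, hs, h1⟩
    · exact absurd h1 (hdx t j hj j' hj' k hk)
    · by_cases hst : t = s
      · subst hst
        rw [← h1]
        exact hk
      · exact absurd h1 (hd t ht s hs hst j hj j' hj' k hk)
  refine ⟨kx, hkx, ?_⟩
  intro u hu v hv huv hna hcom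
  obtain ⟨k, hk⟩ := h.exists_sep hu hv huv hna
  rcases hall k with h1 | ⟨t, ht, h1⟩
  · rw [← h1]
    exact hk
  · exfalso
    obtain ⟨j, j', hj, hj', hjj, c1, c2, c3, c4⟩ := hcom t ht
    exact h.cross (mem_hub hj) (mem_hub hj') hu hv (hfull t ht j hj j' hj' hjj) hk
      c1 c3 c2 c4 h1.symm

theorem Rep.neg (h : Rep K b C L R) : Rep K b C (fun v k => - R v k) (fun v k => - L v k) := by
  refine ⟨fun v hv k => neg_le_neg (h.le v hv k), fun u hu v hv huv => ?_⟩
  rw [h.adj u hu v hv huv]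
  exact ⟨fun h1 k => ⟨neg_le_neg (h1 k).2, neg_le_neg (h1 k).1⟩,
    fun h1 k => ⟨neg_le_neg_iff.1 (h1 k).2, neg_le_neg_iff.1 (h1 k).1⟩⟩

/-- the hubs of the first part adjacent to an item vertex -/
theorem item_pair (b C q : ℕ) : (∀ i, Adj b C (0, 0, 1) (3, i, q) ∧ Adj b C (0, 0, 0) (3, i, q)) ∨
    (∀ i, Adj b C (0, 0, 2) (3, i, q) ∧ Adj b C (0, 0, 3) (3, i, q)) := by
  by_cases h : q % 4 = 0
  · right
    intro i
    constructor <;>
    · rw [adj_hi, ni_iff]
      omega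
  · left
    intro i
    constructor <;>
    · rw [adj_hi, ni_iff]
      omega

theorem Rep.conf (h : Rep K b C L R) (hb : 1 ≤ b) (hC : 2 ≤ C) :
    ∃ (L R : ℕ → ℝ) (lz rz : ℝ) (l r : ℕ → ℕ → ℝ), Conf K b C L R lz rz l r := by
  have hM := hNC hb hC
  -- the orientation
  suffices key : ∀ (L R : Vt → Fin 3 → ℝ) (h : Rep K b C L R) (kx : Fin 3),
      R (2, 0, 0) kx < L (2, b * (C + 1), 0) kx →
      (∀ u ∈ vl K b C, ∀ v ∈ vl K b C, u ≠ v → ¬ Adj b C u v →
      (∀ t < 2, ∃ j j', IsHub t j ∧ IsHub t j' ∧ j ≠ j' ∧ Adj b C (0, t, j) u ∧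
        Adj b C (0, t, j') u ∧ Adj b C (0, t, j) v ∧ Adj b C (0, t, j') v) → S L R kx u v) →
      ∃ (L R : ℕ → ℝ) (lz rz : ℝ) (l r : ℕ → ℕ → ℝ), Conf K b C L R lz rz l r by
    obtain ⟨kx, h1, h2⟩ := h.exists_kx hb hC
    rcases h1 with h1 | h1
    · exact key L R h kx h1 h2
    · refine key _ _ h.neg kx (by simpa using h1) ?_
      intro u hu v hv huv hna hcom
      have h3 := h2 u hu v hv huv hna hcom
      unfold S Pool.Agent.TH656.Bx.Sep at h3 ⊢
      rcases h3 with h3 | h3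
      · right
        simpa using h3
      · left
        simpa using h3
  intro L R h kx hor hsep
  -- two item vertices, not adjacent and not of opposite types
  have hitems : ∀ i < K.length, ∀ i' < K.length, ∀ q < 2 * K.getD i 0 - 1,
      ∀ q' < 2 * K.getD i' 0 - 1, ((3, i, q) : Vt) ≠ (3, i', q') →
      ¬ Adj b C (3, i, q) (3, i', q') → ¬ Opp q q' → S L R kx (3, i, q) (3, i', q') := by
    intro i hi i' hi' q hq q' hq' hne hna ho
    refine hsep _ (mem_item hi hq) _ (mem_item hi' hq') hne hna ?_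
    intro t ht
    have hub := hub_zero ht
    rcases Nat.lt_or_ge t 1 with h1 | h1
    · have e : t = 0 := by omega
      subst e
      by_cases hq0 : q % 4 = 0 ∨ q' % 4 = 0
      · refine ⟨2, 3, Or.inl (by omega), Or.inl (by omega), by norm_num, ?_, ?_, ?_, ?_⟩ <;>
        · rw [adj_hi, ni_iff]
          unfold Opp at ho
          omega
      · refine ⟨0, 1, Or.inl (by omega), Or.inl (by omega), by norm_num, ?_, ?_, ?_, ?_⟩ <;>
        · rw [adj_hi, ni_iff]
          unfold Opp at ho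
          omega
    · have e : t = 1 := by omega
      subst e
      refine ⟨1, 2, hub.2.1, hub.2.2, by norm_num, ?_, ?_, ?_, ?_⟩ <;>
      · rw [adj_hi, ni_iff]
        omega
  refine ⟨fun m => L (2, m, 0) kx, fun m => R (2, m, 0) kx, L (1, 0, 0) kx, R (1, 0, 0) kx,
    fun i q => L (3, i, q) kx, fun i q => R (3, i, q) kx, ?_⟩
  refine ⟨⟨?_, ?_, ?_⟩, ?_, ?_, ?_, ?_, ?_, ?_, ?_, ?_, ?_, hor⟩
  · intro m hm
    exact h.le _ (mem_frame (by omega)) kx
  · intro m hm
    exact h.meet (mem_frame (by omega)) (mem_frame (by omega)) (adj_ff.2 (Or.inl rfl)) kx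
  · intro p q hpq hq
    refine hsep _ (mem_frame (by omega)) _ (mem_frame (by omega)) (by
      intro hc
      simp only [Prod.mk.injEq] at hc
      omega) (by rw [adj_ff]; omega) ?_
    intro t ht
    have hub := hub_zero ht
    rcases Nat.lt_or_ge t 1 with h1 | h1
    · have e : t = 0 := by omega
      subst e
      refine ⟨1, 2, hub.2.1, hub.2.2, by norm_num, ?_, ?_, ?_, ?_⟩ <;>
      · rw [adj_hf, nf_iff]
        omega
    · have e : t = 1 := by omega
      subst e
      refine ⟨0, 1, hub.1, hub.2.1, by norm_num, ?_, ?_, ?_, ?_⟩ <;>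
      · rw [adj_hf, nf_iff]
        omega
  · intro i hi q hq
    exact h.le _ (mem_item hi hq) kx
  · intro i hi q hq
    exact h.meet (mem_item hi (by omega)) (mem_item hi hq) (adj_ii.2 ⟨rfl, Or.inl rfl⟩) kx
  · intro i hi p q hpq hq ho
    refine hitems i hi i hi p (by omega) q hq (by
        intro hc
        simp only [Prod.mk.injEq] at hc
        omega) (by rw [adj_ii]; omega) ho
  · intro i hi i' hi' hne q hq q' hq' ho
    refine hitems i hi i' hi' q hq q' hq' (by
      intro hc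
      simp only [Prod.mk.injEq] at hc
      omega) (by rw [adj_ii]; omega) ho
  · intro i hi q hq m hm hok
    have hok' := hok
    rw [← Bool.not_eq_true, ok_iff] at hok'
    refine hsep _ (mem_item hi hq) _ (mem_frame hm) (by
      intro hc
      simp only [Prod.mk.injEq] at hc
      omega) (fun hc => adj_fi hc.symm) ?_
    intro t ht
    have hub := hub_zero ht
    rcases Nat.lt_or_ge t 1 with h1 | h1
    · have e : t = 0 := by omega
      subst e
      by_cases hq0 : q % 4 = 0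
      · refine ⟨2, 3, Or.inl (by omega), Or.inl (by omega), by norm_num, ?_, ?_, ?_, ?_⟩
        · rw [adj_hi, ni_iff]
          omega
        · rw [adj_hi, ni_iff]
          omega
        · rw [adj_hf, nf_iff]
          omega
        · rw [adj_hf, nf_iff]
          omega
      · refine ⟨1, 0, Or.inl (by omega), Or.inl (by omega), by norm_num, ?_, ?_, ?_, ?_⟩
        · rw [adj_hi, ni_iff]
          omega
        · rw [adj_hi, ni_iff]
          omega
        · rw [adj_hf, nf_iff]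
          omega
        · rw [adj_hf, nf_iff]
          omega
    · have e : t = 1 := by omega
      subst e
      by_cases hq0 : q % 2 = 1
      · -- then `m` is a separator
        have hms : m % (C + 1) = 0 := by
          by_contra hc
          exact hok' ⟨hc, Or.inl hq0⟩
        refine ⟨1, 2, hub.2.1, hub.2.2, by norm_num, ?_, ?_, ?_, ?_⟩
        · rw [adj_hi, ni_iff]
          omega
        · rw [adj_hi, ni_iff]
          omega
        · rw [adj_hf, nf_iff]
          omega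
        · rw [adj_hf, nf_iff]
          omega
      · refine ⟨0, 1, hub.1, hub.2.1, by norm_num, ?_, ?_, ?_, ?_⟩
        · rw [adj_hi, ni_iff]
          omega
        · rw [adj_hi, ni_iff]
          omega
        · rw [adj_hf, nf_iff]
          omega
        · rw [adj_hf, nf_iff]
          omega
  · refine hsep _ mem_z _ (mem_frame (Nat.zero_le _)) (by simp) (by rw [adj_zf]; omega) ?_
    intro t ht
    have hub := hub_zero ht
    refine ⟨0, 1, hub.1, hub.2.1, by norm_num, adj_hz, adj_hz, ?_, ?_⟩ <;>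
    exact adj_hf.2 (nf_sep (by simp))
  · refine hsep _ mem_z _ (mem_frame le_rfl) (by simp) (by rw [adj_zf]; omega) ?_
    intro t ht
    have hub := hub_zero ht
    refine ⟨0, 1, hub.1, hub.2.1, by norm_num, adj_hz, adj_hz, ?_, ?_⟩ <;>
    exact adj_hf.2 (nf_sep (by simp))
  · intro m h0 h1
    exact h.meet mem_z (mem_frame h1.le) (adj_zf.2 ⟨h0, h1⟩) kx
  · intro i hi q hq
    exact h.meet mem_z (mem_item hi hq) adj_zi kx

/-- **Soundness.** -/
theorem sound (hb : 1 ≤ b) (hC : 2 ≤ C) (h : HasBoxRep (gr K b C).graph 3) :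
    ∃ f : ℕ → ℕ, (∀ i < K.length, f i < b) ∧
      ∀ j < b, ∑ i ∈ (Finset.range K.length).filter (fun i => f i = j), (K.getD i 0 - 1) ≤ C := by
  obtain ⟨L, R, h1, h2⟩ := (lrep_iff (nodup_vl K b C)).1 h
  obtain ⟨L', R', lz, rz, l, r, hc⟩ := (Rep.mk h1 h2).conf hb hC
  exact hc.pack hb hC

end

end Pool.Agent.KS6_79.BX
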