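import Pool.Graph.R_seed8.TH656.Bx.Complete
import Pool.Agent.KS6_79.BX.Sound

/-!
# A packing gives a box representation in dimension three
-/

set_option autoImplicit false

namespace Pool.Agent.KS6_79.BX

open Pool.Agent.TH656 Pool.Agent.TH656.Bx

/-- representations with natural numbers -/
theorem rep_nat {l : List Vt} (hl : l.Nodup) {adj : Vt → Vt → Bool} {d : ℕ} (L R : ℕ → Vt → ℕ)
    (hle : ∀ v ∈ l, ∀ k, L k v ≤ R k v)
    (h : ∀ u ∈ l, ∀ v ∈ l, u ≠ v → ((adj u v = true ∨ adj v u = true) ↔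
      ∀ k < d, L k u ≤ R k v ∧ L k v ≤ R k u)) : HasBoxRep (lgraph l adj).graph d := by
  refine (lrep_iff hl).2 ⟨fun v k => (L k v : ℝ), fun v k => (R k v : ℝ), ?_, ?_⟩
  · intro v hv k
    dsimp only
    rw [Nat.cast_le]
    exact hle v hv _
  · intro u hu v hv huv
    refine (h u hu v hv huv).trans ?_
    constructor
    · intro h k
      dsimp only
      rw [Nat.cast_le, Nat.cast_le]
      exact h k k.2
    · intro h k hk
      have h1 := h ⟨k, hk⟩
      dsimp only at h1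
      rwa [Nat.cast_le, Nat.cast_le] at h1

theorem pairs {K : List ℕ} {b C : ℕ} {P : Vt → Vt → Prop} (hsymm : ∀ u v, P u v → P v u)
    (hh : ∀ t j t' j', IsHub t j → IsHub t' j' → ((0, t, j) : Vt) ≠ (0, t', j') →
      (t ≠ t' ↔ P (0, t, j) (0, t', j')))
    (hz : ∀ t j, IsHub t j → P (0, t, j) (1, 0, 0))
    (hf : ∀ t j m, IsHub t j → m ≤ b * (C + 1) → (¬ nf C m t j = true ↔ P (0, t, j) (2, m, 0)))
    (hi : ∀ t j i q, IsHub t j → i < K.length → q < 2 * K.getD i 0 - 1 →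
      (¬ ni q t j = true ↔ P (0, t, j) (3, i, q)))
    (zf : ∀ m, m ≤ b * (C + 1) → ((0 < m ∧ m < b * (C + 1)) ↔ P (1, 0, 0) (2, m, 0)))
    (zi : ∀ i q, i < K.length → q < 2 * K.getD i 0 - 1 → P (1, 0, 0) (3, i, q))
    (ff : ∀ m m', m ≤ b * (C + 1) → m' ≤ b * (C + 1) → m ≠ m' →
      ((m' = m + 1 ∨ m = m' + 1) ↔ P (2, m, 0) (2, m', 0)))
    (fi : ∀ m i q, m ≤ b * (C + 1) → i < K.length → q < 2 * K.getD i 0 - 1 →
      ¬ P (2, m, 0) (3, i, q))
    (ii : ∀ i q i' q', i < K.length → q < 2 * K.getD i 0 - 1 → i' < K.length →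
      q' < 2 * K.getD i' 0 - 1 → ((3, i, q) : Vt) ≠ (3, i', q') →
      ((i = i' ∧ (q' = q + 1 ∨ q = q' + 1)) ↔ P (3, i, q) (3, i', q'))) :
    ∀ u ∈ vl K b C, ∀ v ∈ vl K b C, u ≠ v → (Adj b C u v ↔ P u v) := by
  intro u hu v hv huv
  have hsym : ∀ u v : Vt, (Adj b C v u ↔ P v u) → (Adj b C u v ↔ P u v) :=
    fun u v h => ⟨fun h1 => hsymm _ _ (h.1 h1.symm), fun h1 => (h.2 (hsymm _ _ h1)).symm⟩
  obtain ⟨n, i, j⟩ := u
  obtain ⟨n', i', j'⟩ := v
  rcases mem_vl.1 hu with h | h | h | h <;> rcases mem_vl.1 hv with h' | h' | h' | h'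
  · obtain ⟨rfl, h1⟩ := h
    obtain ⟨rfl, h1'⟩ := h'
    rw [adj_hh]
    exact hh _ _ _ _ h1 h1' huv
  · obtain ⟨rfl, h1⟩ := h
    obtain ⟨rfl, rfl, rfl⟩ := (by simpa using h' : n' = 1 ∧ i' = 0 ∧ j' = 0)
    exact ⟨fun _ => hz _ _ h1, fun _ => adj_hz⟩
  · obtain ⟨rfl, h1⟩ := h
    obtain ⟨rfl, h1', h2'⟩ := h'
    dsimp only at h2'
    subst h2'
    rw [adj_hf]
    exact hf _ _ _ h1 h1'
  · obtain ⟨rfl, h1⟩ := h
    obtain ⟨rfl, h1', h2'⟩ := h'
    rw [adj_hi]
    exact hi _ _ _ _ h1 h1' h2'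
  · obtain ⟨rfl, rfl, rfl⟩ := (by simpa using h : n = 1 ∧ i = 0 ∧ j = 0)
    obtain ⟨rfl, h1'⟩ := h'
    exact hsym _ _ ⟨fun _ => hz _ _ h1', fun _ => adj_hz⟩
  · exact absurd (h.trans h'.symm) huv
  · obtain ⟨rfl, rfl, rfl⟩ := (by simpa using h : n = 1 ∧ i = 0 ∧ j = 0)
    obtain ⟨rfl, h1', h2'⟩ := h'
    dsimp only at h2'
    subst h2'
    rw [adj_zf]
    exact zf _ h1'
  · obtain ⟨rfl, rfl, rfl⟩ := (by simpa using h : n = 1 ∧ i = 0 ∧ j = 0)
    obtain ⟨rfl, h1', h2'⟩ := h'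
    exact ⟨fun _ => zi _ _ h1' h2', fun _ => adj_zi⟩
  · obtain ⟨rfl, h1, h2⟩ := h
    dsimp only at h2
    subst h2
    obtain ⟨rfl, h1'⟩ := h'
    refine hsym _ _ ?_
    rw [adj_hf]
    exact hf _ _ _ h1' h1
  · obtain ⟨rfl, h1, h2⟩ := h
    dsimp only at h2
    subst h2
    obtain ⟨rfl, rfl, rfl⟩ := (by simpa using h' : n' = 1 ∧ i' = 0 ∧ j' = 0)
    refine hsym _ _ ?_
    rw [adj_zf]
    exact zf _ h1
  · obtain ⟨rfl, h1, h2⟩ := h
    dsimp only at h2
    subst h2
    obtain ⟨rfl, h1', h2'⟩ := h'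
    dsimp only at h2'
    subst h2'
    rw [adj_ff]
    exact ff _ _ h1 h1' (fun hc => huv (by rw [hc]))
  · obtain ⟨rfl, h1, h2⟩ := h
    dsimp only at h2
    subst h2
    obtain ⟨rfl, h1', h2'⟩ := h'
    exact ⟨fun hc => absurd hc adj_fi, fun hc => absurd hc (fi _ _ _ h1 h1' h2')⟩
  · obtain ⟨rfl, h1, h2⟩ := h
    obtain ⟨rfl, h1'⟩ := h'
    refine hsym _ _ ?_
    rw [adj_hi]
    exact hi _ _ _ _ h1' h1 h2
  · obtain ⟨rfl, h1, h2⟩ := h
    obtain ⟨rfl, rfl, rfl⟩ := (by simpa using h' : n' = 1 ∧ i' = 0 ∧ j' = 0)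
    exact hsym _ _ ⟨fun _ => zi _ _ h1 h2, fun _ => adj_zi⟩
  · obtain ⟨rfl, h1, h2⟩ := h
    obtain ⟨rfl, h1', h2'⟩ := h'
    dsimp only at h2'
    subst h2'
    exact hsym _ _ ⟨fun hc => absurd hc adj_fi, fun hc => absurd hc (fi _ _ _ h1' h1 h2)⟩
  · obtain ⟨rfl, h1, h2⟩ := h
    obtain ⟨rfl, h1', h2'⟩ := h'
    rw [adj_ii]
    exact ii _ _ _ _ h1 h2 h1' h2' huv

/-- The starting points of the items on the line. -/
structure Start (K : List ℕ) (b C : ℕ) (s : ℕ → ℕ) : Prop where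
  ex : ∀ i < K.length, ∃ j o, j < b ∧ s i = j * (C + 1) + 1 + o ∧ o + K.getD i 0 ≤ C ∧ o % 2 = 0
  disj : ∀ i < K.length, ∀ i' < K.length, i ≠ i' →
    s i + K.getD i 0 ≤ s i' ∨ s i' + K.getD i' 0 ≤ s i

theorem exists_start {K : List ℕ} {b C : ℕ} {f : ℕ → ℕ} (hev : ∀ i, K.getD i 0 % 2 = 0)
    (hf : ∀ i < K.length, f i < b)
    (hs : ∀ j < b, ∑ i ∈ (Finset.range K.length).filter (fun i => f i = j), K.getD i 0 ≤ C) :
    ∃ s, Start K b C s := by
  have h1 : ∀ i < K.length,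
      ∑ i ∈ (Finset.range i).filter (fun i' => f i' = f i), K.getD i 0 + K.getD i 0 ≤ C :=
    fun i hi => (sum_step hi rfl).trans (hs _ (hf i hi))
  refine ⟨fun i => f i * (C + 1) + 1 +
    ∑ i ∈ (Finset.range i).filter (fun i' => f i' = f i), K.getD i 0, ?_, ?_⟩
  · intro i hi
    refine ⟨_, _, hf i hi, rfl, h1 i hi, ?_⟩
    refine Nat.mod_eq_zero_of_dvd (Finset.dvd_sum fun x _ => ?_)
    exact Nat.dvd_of_mod_eq_zero (hev x)
  · have key : ∀ i < K.length, ∀ i' < K.length, f i < f i' →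
        f i * (C + 1) + 1 +
        ∑ i ∈ (Finset.range i).filter (fun i' => f i' = f i), K.getD i 0 + K.getD i 0 ≤
        f i' * (C + 1) + 1 +
        ∑ i ∈ (Finset.range i').filter (fun i => f i = f i'), K.getD i 0 := by
      intro i hi i' hi' hlt
      have h2 := h1 i hi
      have h3 : (f i + 1) * (C + 1) ≤ f i' * (C + 1) := Nat.mul_le_mul_right _ hlt
      have h4 : (f i + 1) * (C + 1) = f i * (C + 1) + (C + 1) := by ring
      omega
    have key2 : ∀ i < K.length, ∀ i' < K.length, f i = f i' → i < i' →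
        f i * (C + 1) + 1 +
        ∑ i ∈ (Finset.range i).filter (fun i' => f i' = f i), K.getD i 0 + K.getD i 0 ≤
        f i' * (C + 1) + 1 +
        ∑ i ∈ (Finset.range i').filter (fun i => f i = f i'), K.getD i 0 := by
      intro i hi i' hi' he hlt
      have h2 := sum_step (a := K) (f := f) (j := f i) hlt rfl
      rw [← he]
      omega
    intro i hi i' hi' hne
    rcases lt_trichotomy (f i) (f i') with h | h | h
    · exact Or.inl (key i hi i' hi' h)
    · rcases lt_or_gt_of_ne hne with h3 | h3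
      · exact Or.inl (key2 i hi i' hi' h h3)
      · exact Or.inr (key2 i' hi' i hi h.symm h3)
    · exact Or.inr (key i' hi' i hi h)

/-- left ends in the first dimension -/
def xl (C : ℕ) (v : Vt) : ℕ :=
  if v.1 = 0 then (if v.2.1 = 0 then 4 * v.2.2 else 0)
  else if v.1 = 1 then 0
  else if v.1 = 2 then (if v.2.1 % (C + 1) ≠ 0 ∧ v.2.1 % (C + 1) % 2 = 0 then 6 else 0)
  else (if v.2.2 % 4 = 0 then 9 else 0)

/-- right ends in the first dimension -/
def xr (C : ℕ) (v : Vt) : ℕ :=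
  if v.1 = 0 then (if v.2.1 = 0 then 4 * v.2.2 + 2 else 14)
  else if v.1 = 1 then 14
  else if v.1 = 2 then (if v.2.1 % (C + 1) % 2 = 1 then 8 else 14)
  else (if v.2.2 % 4 = 2 then 5 else 14)

/-- left ends in the second dimension -/
def yl (v : Vt) : ℕ :=
  if v.1 = 0 then (if v.2.1 = 1 then 4 * v.2.2 else 0)
  else if v.1 = 1 then 0
  else if v.1 = 2 then 0
  else (if v.2.2 % 2 = 1 then 5 else 0)

/-- right ends in the second dimension -/
def yr (C : ℕ) (v : Vt) : ℕ :=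
  if v.1 = 0 then (if v.2.1 = 1 then 4 * v.2.2 + 2 else 10)
  else if v.1 = 1 then 10
  else if v.1 = 2 then (if v.2.1 % (C + 1) = 0 then 10 else 4)
  else 10

/-- left ends on the line -/
def ll (s : ℕ → ℕ) (v : Vt) : ℕ :=
  if v.1 = 0 then 0
  else if v.1 = 1 then 6
  else if v.1 = 2 then 4 * v.2.1
  else 4 * (s v.2.1 + v.2.2 / 2) + 2 + v.2.2 % 2

/-- right ends on the line -/
def lr (N : ℕ) (s : ℕ → ℕ) (v : Vt) : ℕ :=
  if v.1 = 0 then 4 * N + 5
  else if v.1 = 1 then 4 * N - 1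
  else if v.1 = 2 then 4 * v.2.1 + 5
  else 4 * (s v.2.1 + v.2.2 / 2) + 3 + 3 * (v.2.2 % 2)

/-- the boxes meet in the first two dimensions -/
def Mxy (C : ℕ) (u v : Vt) : Prop :=
  (xl C u ≤ xr C v ∧ xl C v ≤ xr C u) ∧ (yl u ≤ yr C v ∧ yl v ≤ yr C u)

theorem Mxy.symm {C : ℕ} {u v : Vt} (h : Mxy C u v) : Mxy C v u := ⟨h.1.symm, h.2.symm⟩

theorem mxy_hh {C t j t' j' : ℕ} (h : IsHub t j) (h' : IsHub t' j')
    (hne : ((0, t, j) : Vt) ≠ (0, t', j')) : t ≠ t' ↔ Mxy C (0, t, j) (0, t', j') := by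
  have hne' : ¬ (t = t' ∧ j = j') := fun hc => hne (by rw [hc.1, hc.2])
  unfold IsHub at h h'
  simp only [Mxy, xl, xr, yl, yr, if_true]
  split_ifs <;> omega

theorem mxy_hz {C t j : ℕ} (h : IsHub t j) : Mxy C (0, t, j) (1, 0, 0) := by
  unfold IsHub at h
  simp only [Mxy, xl, xr, yl, yr, if_true]
  simp
  split_ifs <;> omega

theorem mxy_hf {C t j m : ℕ} (h : IsHub t j) :
    ¬ nf C m t j = true ↔ Mxy C (0, t, j) (2, m, 0) := by
  rw [nf_iff]
  unfold IsHub at h
  simp only [Mxy, xl, xr, yl, yr, if_true]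
  simp
  split_ifs <;> omega

theorem mxy_hi {C t j i q : ℕ} (h : IsHub t j) :
    ¬ ni q t j = true ↔ Mxy C (0, t, j) (3, i, q) := by
  rw [ni_iff]
  unfold IsHub at h
  simp only [Mxy, xl, xr, yl, yr, if_true]
  simp
  split_ifs <;> omega

theorem mxy_zf {C m : ℕ} : Mxy C (1, 0, 0) (2, m, 0) := by
  simp only [Mxy, xl, xr, yl, yr]
  simp
  split_ifs <;> omega

theorem mxy_zi {C i q : ℕ} : Mxy C (1, 0, 0) (3, i, q) := by
  simp only [Mxy, xl, xr, yl, yr]
  simp
  split_ifs <;> omega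

theorem mod_succ {C m : ℕ} : (m + 1) % (C + 1) = m % (C + 1) + 1 ∨ (m + 1) % (C + 1) = 0 := by
  have e1 := Nat.div_add_mod m (C + 1)
  have e2 := Nat.mod_lt m (show 0 < C + 1 by omega)
  rcases Nat.lt_or_ge (m % (C + 1) + 1) (C + 1) with h5 | h5
  · left
    rw [Nat.add_mod]
    rcases Nat.eq_zero_or_pos C with h0 | h0
    · subst h0
      omega
    · rw [Nat.mod_eq_of_lt (show 1 < C + 1 by omega), Nat.mod_eq_of_lt h5]
  · right
    have e3 : m % (C + 1) = C := by omega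
    rw [Nat.add_mod, e3]
    rcases Nat.eq_zero_or_pos C with h0 | h0
    · subst h0
      simp
    · rw [Nat.mod_eq_of_lt (show 1 < C + 1 by omega), Nat.mod_self]

theorem mxy_ff {C m : ℕ} : Mxy C (2, m, 0) (2, m + 1, 0) := by
  have h := @mod_succ C m
  simp only [Mxy, xl, xr, yl, yr]
  simp
  split_ifs <;> omega

theorem mxy_ii {C i q : ℕ} : Mxy C (3, i, q) (3, i, q + 1) := by
  simp only [Mxy, xl, xr, yl, yr]
  simp
  split_ifs <;> omega

/-- the boxes meet in dimension three -/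
def Mt (C N : ℕ) (s : ℕ → ℕ) (u v : Vt) : Prop :=
  Mxy C u v ∧ (ll s u ≤ lr N s v ∧ ll s v ≤ lr N s u)

theorem Mt.symm {C N : ℕ} {s : ℕ → ℕ} {u v : Vt} (h : Mt C N s u v) : Mt C N s v u :=
  ⟨h.1.symm, h.2.symm⟩

section

variable {K : List ℕ} {b C : ℕ} {s : ℕ → ℕ}

theorem Start.bd (hs : Start K b C s) {i : ℕ} (hi : i < K.length) :
    1 ≤ s i ∧ s i + K.getD i 0 ≤ b * (C + 1) := by
  obtain ⟨j, o, hj, h1, h2, -⟩ := hs.ex i hi
  have h3 : (j + 1) * (C + 1) ≤ b * (C + 1) := Nat.mul_le_mul_right _ hj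
  have h4 : (j + 1) * (C + 1) = j * (C + 1) + (C + 1) := by ring
  omega

/-- the residues below an item -/
theorem Start.mod (hs : Start K b C s) {i x : ℕ} (hi : i < K.length) (hx : x < K.getD i 0) :
    ∃ y, (s i + x) % (C + 1) = 1 + y + x ∧ y % 2 = 0 := by
  obtain ⟨j, o, hj, h1, h2, h3⟩ := hs.ex i hi
  refine ⟨o, ?_, h3⟩
  have e : s i + x = (C + 1) * j + (1 + o + x) := by rw [h1]; ring
  rw [e, Nat.mul_add_mod]
  exact Nat.mod_eq_of_lt (by omega)

theorem le_all (hN : 2 ≤ b * (C + 1)) {v : Vt} (hv : v ∈ vl K b C) :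
    xl C v ≤ xr C v ∧ yl v ≤ yr C v ∧ ll s v ≤ lr (b * (C + 1)) s v := by
  obtain ⟨n, i, j⟩ := v
  rcases mem_vl.1 hv with h | h | h | h
  · obtain ⟨rfl, h1⟩ := h
    simp only [xl, xr, yl, yr, ll, lr, if_true]
    unfold IsHub at h1
    refine ⟨?_, ?_, by omega⟩
    · dsimp only at h1 ⊢
      split_ifs <;> omega
    · dsimp only at h1 ⊢
      split_ifs <;> omega
  · obtain ⟨rfl, rfl, rfl⟩ := (by simpa using h : n = 1 ∧ i = 0 ∧ j = 0)
    simp only [xl, xr, yl, yr, ll, lr]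
    simp
    omega
  · obtain ⟨rfl, h1, h2⟩ := h
    simp only [xl, xr, yl, yr, ll, lr]
    simp
    split_ifs <;> omega
  · obtain ⟨rfl, h1, h2⟩ := h
    simp only [xl, xr, yl, yr, ll, lr]
    simp
    refine ⟨?_, ?_, by omega⟩
    · split_ifs <;> omega
    · split_ifs <;> omega

/-- **Completeness.** -/
theorem complete (hb : 1 ≤ b) (hC : 2 ≤ C) (hev : ∀ i, K.getD i 0 % 2 = 0)
    (h : ∃ f : ℕ → ℕ, (∀ i < K.length, f i < b) ∧
      ∀ j < b, ∑ i ∈ (Finset.range K.length).filter (fun i => f i = j), K.getD i 0 ≤ C) :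
    HasBoxRep (gr K b C).graph 3 := by
  have hM := hNC hb hC
  obtain ⟨f, hf1, hf2⟩ := h
  obtain ⟨s, hs⟩ := exists_start hev hf1 hf2
  set N := b * (C + 1) with hNdef
  have key : ∀ u ∈ vl K b C, ∀ v ∈ vl K b C, u ≠ v → (Adj b C u v ↔ Mt C N s u v) := by
    refine pairs (fun _ _ => Mt.symm) ?_ ?_ ?_ ?_ ?_ ?_ ?_ ?_ ?_
    · intro t j t' j' h1 h2 hne
      rw [mxy_hh (C := C) h1 h2 hne]
      refine ⟨fun h => ⟨h, ?_⟩, fun h => h.1⟩
      simp [ll, lr]
    · intro t j h1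
      refine ⟨mxy_hz h1, ?_⟩
      simp [ll, lr]
      omega
    · intro t j m h1 h2
      rw [mxy_hf h1]
      refine ⟨fun h => ⟨h, ?_⟩, fun h => h.1⟩
      simp [ll, lr]
      omega
    · intro t j i q h1 h2 h3
      rw [mxy_hi (C := C) (i := i) h1]
      refine ⟨fun h => ⟨h, ?_⟩, fun h => h.1⟩
      have hbd := hs.bd h2
      simp only [ll, lr]
      simp
      omega
    · intro m h1
      refine ⟨fun h => ⟨mxy_zf, ?_⟩, fun h => ?_⟩
      · simp [ll, lr]
        omega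
      · have h2 := h.2
        simp [ll, lr] at h2
        omega
    · intro i q h1 h2
      refine ⟨mxy_zi, ?_⟩
      have hbd := hs.bd h1
      simp only [ll, lr]
      simp
      omega
    · intro m m' h1 h2 hne
      constructor
      · rintro (rfl | rfl)
        · refine ⟨mxy_ff, ?_⟩
          simp [ll, lr]
          omega
        · refine ⟨mxy_ff.symm, ?_⟩
          simp [ll, lr]
          omega
      · intro h
        have h2 := h.2
        simp [ll, lr] at h2
        omega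
    · intro m i q h1 h2 h3 h
      have hbd := hs.bd h2
      have hl := h.2
      simp only [ll, lr] at hl
      simp at hl
      have hx := h.1.1
      have hy := h.1.2
      simp only [xl, xr, yl, yr] at hx hy
      simp at hx hy
      rcases Nat.mod_two_eq_zero_or_one q with h0 | h0
      · have hm : m = s i + q / 2 := by omega
        obtain ⟨y, e1, e2⟩ := hs.mod h2 (x := q / 2) (by omega)
        rw [← hm] at e1
        have h4 : q % 4 = 0 ∨ q % 4 = 2 := by omega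
        rcases h4 with h4 | h4
        · have e3 : m % (C + 1) % 2 = 1 := by omega
          have e4 : ¬ (q % 4 = 2) := by omega
          rw [if_pos h4, if_pos e3] at hx
          omega
        · have e3 : m % (C + 1) % 2 = 0 := by omega
          have e4 : ¬ (q % 4 = 0) := by omega
          have e5 : ¬ (m % (C + 1) % 2 = 1) := by omega
          have e6 : ¬ (m % (C + 1) = 0) ∧ m % (C + 1) % 2 = 0 := by omega
          rw [if_pos h4, if_pos e6] at hx
          omega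
      · have hm : m = s i + q / 2 ∨ m = s i + (q / 2 + 1) := by omega
        have e1 : m % (C + 1) ≠ 0 := by
          rcases hm with hm | hm
          · obtain ⟨y, e1, e2⟩ := hs.mod h2 (x := q / 2) (by omega)
            rw [← hm] at e1
            omega
          · obtain ⟨y, e1, e2⟩ := hs.mod h2 (x := q / 2 + 1) (by omega)
            rw [← hm] at e1
            omega
        rw [if_pos h0, if_neg e1] at hy
        omega
    · intro i q i' q' h1 h2 h3 h4 hne
      constructor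
      · rintro ⟨rfl, rfl | rfl⟩
        · refine ⟨mxy_ii, ?_⟩
          simp only [ll, lr]
          simp
          omega
        · refine ⟨mxy_ii.symm, ?_⟩
          simp only [ll, lr]
          simp
          omega
      · intro h
        have hl := h.2
        simp only [ll, lr] at hl
        simp at hl
        by_cases hii : i = i'
        · subst hii
          have hqq : q ≠ q' := fun hc => hne (by rw [hc])
          refine ⟨rfl, ?_⟩
          omega
        · exfalso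
          rcases hs.disj i h1 i' h3 hii with h5 | h5 <;> omega
  refine rep_nat (nodup_vl K b C)
    (fun k => if k = 0 then xl C else if k = 1 then yl else ll s)
    (fun k => if k = 0 then xr C else if k = 1 then yr C else lr N s) ?_ ?_
  · intro v hv k
    have h1 := le_all (s := s) (by omega : 2 ≤ b * (C + 1)) hv
    by_cases hk0 : k = 0
    · simpa [hk0] using h1.1
    · by_cases hk1 : k = 1
      · simpa [hk1] using h1.2.1
      · simpa [hk0, hk1] using h1.2.2
  · intro u hu v hv huv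
    refine (key u hu v hv huv).trans ?_
    unfold Mt Mxy
    constructor
    · intro h k hk
      have h5 : k = 0 ∨ k = 1 ∨ k = 2 := by omega
      rcases h5 with rfl | rfl | rfl
      · simpa using h.1.1
      · simpa using h.1.2
      · simpa using h.2
    · intro h
      have h0 := h 0 (by norm_num)
      have h1 := h 1 (by norm_num)
      have h2 := h 2 (by norm_num)
      simp at h0 h1 h2
      exact ⟨⟨h0, h1⟩, h2⟩

end

end Pool.Agent.KS6_79.BX
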