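import Pool.Agent.KS6_79.BX.Complete

/-!
# The graph always has a box representation in dimension four
-/

set_option autoImplicit false

namespace Pool.Agent.KS6_79.BX

open Pool.Agent.TH656 Pool.Agent.TH656.Bx

/-- The room for an item. -/
def W (K : List ℕ) : ℕ := 2 * K.sum + 2

theorem getD_W (K : List ℕ) (i : ℕ) : 2 * K.getD i 0 + 2 ≤ W K := by
  unfold W
  have h : K.getD i 0 ≤ K.sum := by
    by_cases hi : i < K.length
    · rw [List.getD_eq_getElem _ _ hi]
      exact List.le_sum_of_mem (List.getElem_mem hi)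
    · rw [List.getD_eq_default _ _ (by omega)]
      omega
  omega

theorem item_lt {K : List ℕ} {i i' q : ℕ} (hii : i < i') (hq : q < 2 * K.getD i 0 - 1) :
    i * W K + q + 2 ≤ i' * W K := by
  have h1 := getD_W K i
  have h2 : (i + 1) * W K ≤ i' * W K := Nat.mul_le_mul_right _ hii
  have h3 : (i + 1) * W K = i * W K + W K := by ring
  omega

/-- left ends on the line -/
def l4 (v : Vt) : ℕ := if v.1 = 1 then 6 else if v.1 = 2 then 4 * v.2.1 else 0

/-- right ends on the line -/
def r4 (N : ℕ) (v : Vt) : ℕ :=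
  if v.1 = 1 then 4 * N - 1 else if v.1 = 2 then 4 * v.2.1 + 5 else 4 * N + 5

/-- left ends in the fourth dimension -/
def wl (K : List ℕ) (v : Vt) : ℕ := if v.1 = 3 then 2 * (v.2.1 * W K + v.2.2) + 2 else 0

/-- right ends in the fourth dimension -/
def wr (K : List ℕ) (v : Vt) : ℕ :=
  if v.1 = 3 then 2 * (v.2.1 * W K + v.2.2) + 4 else if v.1 = 2 then 0
    else 2 * (K.length * W K) + 4

/-- the boxes meet in dimension four -/
def Mt4 (K : List ℕ) (C N : ℕ) (u v : Vt) : Prop :=
  Mxy C u v ∧ (l4 u ≤ r4 N v ∧ l4 v ≤ r4 N u) ∧ (wl K u ≤ wr K v ∧ wl K v ≤ wr K u)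

theorem Mt4.symm {K : List ℕ} {C N : ℕ} {u v : Vt} (h : Mt4 K C N u v) : Mt4 K C N v u :=
  ⟨h.1.symm, h.2.1.symm, h.2.2.symm⟩

variable {K : List ℕ} {b C : ℕ}

/-- **Dimension four.** -/
theorem four (hb : 1 ≤ b) (hC : 2 ≤ C) : HasBoxRep (gr K b C).graph 4 := by
  have hM := hNC hb hC
  set N := b * (C + 1) with hNdef
  have key : ∀ u ∈ vl K b C, ∀ v ∈ vl K b C, u ≠ v → (Adj b C u v ↔ Mt4 K C N u v) := by
    refine pairs (fun _ _ => Mt4.symm) ?_ ?_ ?_ ?_ ?_ ?_ ?_ ?_ ?_
    · intro t j t' j' h1 h2 hne
      rw [mxy_hh (C := C) h1 h2 hne]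
      refine ⟨fun h => ⟨h, ?_, ?_⟩, fun h => h.1⟩
      · simp [l4, r4]
      · simp [wl, wr]
    · intro t j h1
      refine ⟨mxy_hz h1, ?_, ?_⟩
      · simp [l4, r4]
        omega
      · simp [wl, wr]
    · intro t j m h1 h2
      rw [mxy_hf h1]
      refine ⟨fun h => ⟨h, ?_, ?_⟩, fun h => h.1⟩
      · simp [l4, r4]
        omega
      · simp [wl, wr]
    · intro t j i q h1 h2 h3
      rw [mxy_hi (C := C) (i := i) h1]
      have hbd := item_lt h2 h3
      refine ⟨fun h => ⟨h, ?_, ?_⟩, fun h => h.1⟩
      · simp [l4, r4]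
      · simp [wl, wr]
        omega
    · intro m h1
      refine ⟨fun h => ⟨mxy_zf, ?_, ?_⟩, fun h => ?_⟩
      · simp [l4, r4]
        omega
      · simp [wl, wr]
      · have h2 := h.2.1
        simp [l4, r4] at h2
        omega
    · intro i q h1 h2
      have hbd := item_lt h1 h2
      refine ⟨mxy_zi, ?_, ?_⟩
      · simp [l4, r4]
        omega
      · simp [wl, wr]
        omega
    · intro m m' h1 h2 hne
      constructor
      · rintro (rfl | rfl)
        · refine ⟨mxy_ff, ?_, ?_⟩
          · simp [l4, r4]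
            omega
          · simp [wl, wr]
        · refine ⟨mxy_ff.symm, ?_, ?_⟩
          · simp [l4, r4]
            omega
          · simp [wl, wr]
      · intro h
        have h2 := h.2.1
        simp [l4, r4] at h2
        omega
    · intro m i q h1 h2 h3 h
      have h4 := h.2.2
      simp [wl, wr] at h4
    · intro i q i' q' h1 h2 h3 h4 hne
      constructor
      · rintro ⟨rfl, rfl | rfl⟩
        · refine ⟨mxy_ii, ?_, ?_⟩
          · simp [l4, r4]
          · simp [wl, wr]
            omega
        · refine ⟨mxy_ii.symm, ?_, ?_⟩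
          · simp [l4, r4]
          · simp [wl, wr]
            omega
      · intro h
        have hl := h.2.2
        simp [wl, wr] at hl
        rcases lt_trichotomy i i' with hii | hii | hii
        · have := item_lt hii h2
          omega
        · subst hii
          have hqq : q ≠ q' := fun hc => hne (by rw [hc])
          refine ⟨rfl, ?_⟩
          omega
        · have := item_lt hii h4
          omega
  refine rep_nat (nodup_vl K b C)
    (fun k => if k = 0 then xl C else if k = 1 then yl else if k = 2 then l4 else wl K)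
    (fun k => if k = 0 then xr C else if k = 1 then yr C else if k = 2 then r4 N else wr K) ?_ ?_
  · intro v hv k
    have h1 := le_all (s := fun _ => 0) (by omega : 2 ≤ b * (C + 1)) hv
    by_cases hk0 : k = 0
    · simpa [hk0] using h1.1
    · by_cases hk1 : k = 1
      · simpa [hk1] using h1.2.1
      · obtain ⟨n, i, j⟩ := v
        have hn : n = 0 ∨ n = 1 ∨ n = 2 ∨ (n = 3 ∧ i < K.length ∧ j < 2 * K.getD i 0 - 1) := by
          rcases mem_vl.1 hv with h | h | h | h
          · exact Or.inl h.1
          · obtain ⟨rfl, rfl, rfl⟩ := (by simpa using h : n = 1 ∧ i = 0 ∧ j = 0)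
            omega
          · exact Or.inr (Or.inr (Or.inl h.1))
          · exact Or.inr (Or.inr (Or.inr h))
        by_cases hk2 : k = 2
        · simp only [hk2]
          rcases hn with rfl | rfl | rfl | ⟨rfl, -⟩ <;> simp [l4, r4] <;> omega
        · simp only [hk0, hk1, hk2, if_false]
          rcases hn with rfl | rfl | rfl | ⟨rfl, -⟩ <;> simp [wl, wr]
  · intro u hu v hv huv
    refine (key u hu v hv huv).trans ?_
    unfold Mt4 Mxy
    constructor
    · intro h k hk
      have h5 : k = 0 ∨ k = 1 ∨ k = 2 ∨ k = 3 := by omega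
      rcases h5 with rfl | rfl | rfl | rfl
      · simpa using h.1.1
      · simpa using h.1.2
      · simpa using h.2.1
      · simpa using h.2.2
    · intro h
      have h0 := h 0 (by norm_num)
      have h1 := h 1 (by norm_num)
      have h2 := h 2 (by norm_num)
      have h3 := h 3 (by norm_num)
      simp at h0 h1 h2 h3
      exact ⟨⟨h0, h1⟩, h2, h3⟩

end Pool.Agent.KS6_79.BX
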