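import Pool.Graph.R_seed8.Y605.BX.Near
import Pool.Graph.R_seed8.Y605.BX.Join
import Pool.Agent.KS6_79.BX.Four

/-!
# The reduction for all dimensions from three on
-/

set_option autoImplicit false

namespace Pool.Agent.KS6_79.BX

open Pool.Agent.NPC Pool.Agent.NPC.H632 Pool.Agent.H557R2.Tri Pool.Agent.H692R2
open Pool.Agent.H43R3.SN Pool.Agent.NPC.SNP Pool.Agent.TH656 Pool.Agent.TH656.Bx
open Pool.Agent.Y605.BX (NearPaths IsPathDecomposition pathwidth extra adE extra_iff nodup_ext
  mem_extra length_extra NearPaths.mono NearPaths.pathwidth_le NearPaths.treewidth_le)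

/-- the scaling factor -/
def sc (a : List ℕ) : ℕ := 2 * (a.length + 1)

/-- the scaled sizes -/
def Ks (a : List ℕ) : List ℕ := a.map (fun x => sc a * x)

theorem Ks_length (a : List ℕ) : (Ks a).length = a.length := by simp [Ks]

theorem Ks_getD (a : List ℕ) (i : ℕ) : (Ks a).getD i 0 = sc a * a.getD i 0 := by
  have h := List.getD_map (l := a) (d := 0) (n := i) (fun x => sc a * x)
  rw [mul_zero] at h
  exact h

theorem Ks_even (a : List ℕ) (i : ℕ) : (Ks a).getD i 0 % 2 = 0 := by
  rw [Ks_getD]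
  unfold sc
  rw [mul_assoc]
  exact Nat.mul_mod_right 2 _

section

variable {a : List ℕ} {b B : ℕ}

theorem two_le (hB : 1 ≤ B) : 2 ≤ sc a * B := by
  unfold sc
  calc 2 = 2 * 1 * 1 := by norm_num
    _ ≤ 2 * (a.length + 1) * B := Nat.mul_le_mul (Nat.mul_le_mul_left 2 (by omega)) hB

/-- **The representations of dimension three are the packings.** -/
theorem three_iff (hb : 1 ≤ b) (hB : 1 ≤ B) : HasBoxRep (gr (Ks a) b (sc a * B)).graph 3 ↔
    ∃ f : ℕ → ℕ, (∀ i < a.length, f i < b) ∧
      ∀ j < b, ∑ i ∈ (Finset.range a.length).filter (fun i => f i = j), a.getD i 0 ≤ B := by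
  constructor
  · intro h
    obtain ⟨f, h1, h2⟩ := sound hb (two_le hB) h
    rw [Ks_length] at h1
    refine ⟨f, h1, fun j hj => ?_⟩
    have h3 := h2 j hj
    rw [Ks_length] at h3
    set T := (Finset.range a.length).filter (fun i => f i = j) with hT
    have hcard : T.card ≤ a.length := by
      refine (Finset.card_filter_le _ _).trans ?_
      rw [Finset.card_range]
    have h4 : sc a * ∑ i ∈ T, a.getD i 0 ≤ sc a * B + a.length := by
      calc sc a * ∑ i ∈ T, a.getD i 0 = ∑ i ∈ T, (Ks a).getD i 0 := by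
            rw [Finset.mul_sum]
            exact Finset.sum_congr rfl fun i _ => (Ks_getD a i).symm
        _ ≤ ∑ i ∈ T, (((Ks a).getD i 0 - 1) + 1) := Finset.sum_le_sum fun i _ => by omega
        _ = ∑ i ∈ T, ((Ks a).getD i 0 - 1) + T.card := by
            rw [Finset.sum_add_distrib, Finset.sum_const, smul_eq_mul, mul_one]
        _ ≤ sc a * B + a.length := Nat.add_le_add h3 hcard
    by_contra hc
    have h5 : sc a * (B + 1) ≤ sc a * ∑ i ∈ T, a.getD i 0 := Nat.mul_le_mul_left _ (by omega)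
    have h6 : sc a * (B + 1) = sc a * B + sc a := by ring
    have h7 : sc a = 2 * (a.length + 1) := rfl
    omega
  · rintro ⟨f, h1, h2⟩
    refine complete hb (two_le hB) (Ks_even a) ⟨f, by rwa [Ks_length], fun j hj => ?_⟩
    rw [Ks_length]
    calc ∑ i ∈ (Finset.range a.length).filter (fun i => f i = j), (Ks a).getD i 0
        = sc a * ∑ i ∈ (Finset.range a.length).filter (fun i => f i = j), a.getD i 0 := by
          rw [Finset.mul_sum]
          exact Finset.sum_congr rfl fun i _ => Ks_getD a i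
      _ ≤ sc a * B := Nat.mul_le_mul_left _ (h2 j hj)

/-- The graph with `2 c` additional vertices. -/
def grE (c : ℕ) (K : List ℕ) (b C : ℕ) : FinGraph := lgraph (vl K b C ++ extra c) (adE (ad b C))

end

section

variable {K : List ℕ} {b C : ℕ}

theorem vl_ne4 : ∀ v ∈ vl K b C, v.1 ≠ 4 := by
  intro v hv
  rcases mem_vl.1 hv with h | h | h | h
  · omega
  · rw [h]
    norm_num
  · omega
  · omega

theorem grE_iff (c d : ℕ) :
    HasBoxRep (grE c K b C).graph (d + c) ↔ HasBoxRep (gr K b C).graph d :=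
  extra_iff (nodup_vl K b C) vl_ne4 c

theorem fin2 : ∀ k0 k1 k2 : Fin 2, k0 ≠ k1 → k0 ≠ k2 → k1 ≠ k2 → False := by decide

/-- there is no representation in dimension two -/
theorem not_two (hb : 1 ≤ b) (hC : 2 ≤ C) : ¬ HasBoxRep (gr K b C).graph 2 := by
  intro h
  have hM := hNC hb hC
  obtain ⟨L, R, h1, h2⟩ := (lrep_iff (nodup_vl K b C)).1 h
  have hex : ∀ u ∈ vl K b C, ∀ v ∈ vl K b C, u ≠ v → ¬ Adj b C u v →
      ∃ k, TH656.Bx.Sep (L u k) (R u k) (L v k) (R v k) := by
    intro u hu v hv huv hna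
    have h3 := (not_congr (h2 u hu v hv huv)).1 hna
    push Not at h3
    obtain ⟨k, hk⟩ := h3
    refine ⟨k, ?_⟩
    unfold TH656.Bx.Sep
    by_cases h4 : L u k ≤ R v k
    · exact Or.inl (hk h4)
    · exact Or.inr (not_le.1 h4)
  have hcr : ∀ u ∈ vl K b C, ∀ u' ∈ vl K b C, ∀ v ∈ vl K b C, ∀ v' ∈ vl K b C, ∀ k k',
      TH656.Bx.Sep (L u k) (R u k) (L u' k) (R u' k) →
      TH656.Bx.Sep (L v k') (R v k') (L v' k') (R v' k') →
      Adj b C u v → Adj b C u v' → Adj b C u' v → Adj b C u' v' → k ≠ k' := by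
    rintro u hu u' hu' v hv v' hv' k _ h3 h4 m1 m2 m3 m4 rfl
    exact no_c4 h3 h4 ((h2 u hu v hv m1.ne).1 m1 k) ((h2 u hu v' hv' m2.ne).1 m2 k)
      ((h2 u' hu' v hv m3.ne).1 m3 k) ((h2 u' hu' v' hv' m4.ne).1 m4 k)
  have a0 := mem_hub (K := K) (b := b) (C := C) (hub_zero (t := 0) (by norm_num)).1
  have a1 := mem_hub (K := K) (b := b) (C := C) (hub_zero (t := 0) (by norm_num)).2.1
  have b0 := mem_hub (K := K) (b := b) (C := C) (hub_zero (t := 1) (by norm_num)).1
  have b1 := mem_hub (K := K) (b := b) (C := C) (hub_zero (t := 1) (by norm_num)).2.1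
  have f0 := mem_frame (K := K) (b := b) (C := C) (Nat.zero_le _)
  have f1 := mem_frame (K := K) (b := b) (C := C) le_rfl
  have hs0 : ∀ t j, Adj b C (0, t, j) (2, 0, 0) := fun t j => adj_hf.2 (nf_sep (by simp))
  have hsM : ∀ t j, Adj b C (0, t, j) (2, b * (C + 1), 0) := fun t j =>
    adj_hf.2 (nf_sep (by simp))
  have hh : ∀ j j', Adj b C (0, 0, j) (0, 1, j') := fun j j' => adj_hh.2 (by norm_num)
  obtain ⟨k0, e0⟩ := hex _ a0 _ a1 (by simp) (by rw [adj_hh]; simp)
  obtain ⟨k1, e1⟩ := hex _ b0 _ b1 (by simp) (by rw [adj_hh]; simp)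
  obtain ⟨k2, e2⟩ := hex _ f0 _ f1 (by
    intro hc
    simp only [Prod.mk.injEq] at hc
    omega) (by rw [adj_ff]; omega)
  exact fin2 k0 k1 k2
    (hcr _ a0 _ a1 _ b0 _ b1 _ _ e0 e1 (hh _ _) (hh _ _) (hh _ _) (hh _ _))
    (hcr _ a0 _ a1 _ f0 _ f1 _ _ e0 e2 (hs0 _ _) (hsM _ _) (hs0 _ _) (hsM _ _))
    (hcr _ b0 _ b1 _ f0 _ f1 _ _ e1 e2 (hs0 _ _) (hsM _ _) (hs0 _ _) (hsM _ _))

theorem grE_ge3 (c : ℕ) (hb : 1 ≤ b) (hC : 2 ≤ C) : 3 + c ≤ boxicity (grE c K b C).graph := by
  by_contra h
  have h1 : boxicity (grE c K b C).graph ≤ 2 + c := by omega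
  exact not_two hb hC ((grE_iff c 2).1 (boxicity_le_iff.1 h1))

theorem grE_le4 (c : ℕ) (hb : 1 ≤ b) (hC : 2 ≤ C) : boxicity (grE c K b C).graph ≤ 4 + c :=
  boxicity_le_iff.2 ((grE_iff c 4).2 (four hb hC))

/-- The numbers of the vertices of the paths. -/
def num (K : List ℕ) (b C : ℕ) (v : TH656.Vt) : ℕ :=
  if v.1 = 2 then v.2.1 else b * (C + 1) + 2 + (v.2.1 * W K + v.2.2)

theorem path_mem {c : ℕ} {v : TH656.Vt} (hv : v ∈ vl K b C ++ extra c) (h : ¬ (v.1 ≤ 1 ∨ v.1 = 4)) :
    (v.1 = 2 ∧ v.2.1 ≤ b * (C + 1) ∧ v.2.2 = 0) ∨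
    (v.1 = 3 ∧ v.2.1 < K.length ∧ v.2.2 < 2 * K.getD v.2.1 0 - 1) := by
  rw [List.mem_append] at hv
  rcases hv with hv | hv
  · rcases mem_vl.1 hv with h1 | h1 | h1 | h1
    · exact absurd (Or.inl (by omega)) h
    · exact absurd (Or.inl (by rw [h1])) h
    · exact Or.inl h1
    · exact Or.inr h1
  · exact absurd (Or.inr (mem_extra.1 hv).1) h

theorem hub_mem {c : ℕ} {v : TH656.Vt} (hv : v ∈ vl K b C ++ extra c) (h : v.1 ≤ 1 ∨ v.1 = 4) :
    v ∈ hubs ++ extra c := by
  rw [List.mem_append] at hv ⊢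
  rcases hv with hv | hv
  · left
    obtain ⟨n, i, j⟩ := v
    rcases mem_vl.1 hv with h1 | h1 | h1 | h1
    · obtain ⟨rfl, h5⟩ := h1
      dsimp only at h5
      rcases h5 with ⟨rfl, h6⟩ | ⟨rfl, h6⟩
      · interval_cases j <;> decide
      · interval_cases j <;> decide
    · rw [h1]
      decide
    · have := h1.1
      dsimp only at this h
      omega
    · have := h1.1
      dsimp only at this h
      omega
  · exact Or.inr hv

theorem near (c : ℕ) (K : List ℕ) (b C : ℕ) : NearPaths (grE c K b C).graph (8 + 2 * c) := by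
  classical
  have hn : (vl K b C ++ extra c).Nodup := nodup_ext (nodup_vl K b C) vl_ne4 c
  have hinj : Function.Injective (fun i : Fin (vl K b C ++ extra c).length =>
      (vl K b C ++ extra c).get i) := fun i j h => (List.Nodup.get_inj_iff hn).1 h
  have key : NearPaths (V := Fin (vl K b C ++ extra c).length)
      (lgraph (vl K b C ++ extra c) (adE (ad b C))).graph (8 + 2 * c) := by
    refine ⟨Finset.univ.filter (fun i => ((vl K b C ++ extra c).get i).1 ≤ 1 ∨
      ((vl K b C ++ extra c).get i).1 = 4), fun i => num K b C ((vl K b C ++ extra c).get i),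
      ?_, ?_, ?_⟩
    · have h1 : (Finset.univ.filter (fun i => ((vl K b C ++ extra c).get i).1 ≤ 1 ∨
          ((vl K b C ++ extra c).get i).1 = 4)).card ≤ (hubs ++ extra c).toFinset.card := by
        refine Finset.card_le_card_of_injOn (fun i => (vl K b C ++ extra c).get i) ?_ ?_
        · intro i hi
          rw [Finset.mem_coe, Finset.mem_filter] at hi
          rw [Finset.mem_coe, List.mem_toFinset]
          exact hub_mem (List.get_mem _ _) hi.2
        · intro i _ j _ h
          exact hinj h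
      have h2 := (hubs ++ extra c).toFinset_card_le
      rw [List.length_append, length_extra] at h2
      have h3 : hubs.length = 8 := rfl
      omega
    · intro u v hu hv huv
      rw [Finset.mem_filter, not_and] at hu hv
      have hu' := path_mem (List.get_mem _ _) (hu (Finset.mem_univ _))
      have hv' := path_mem (List.get_mem _ _) (hv (Finset.mem_univ _))
      apply hinj
      dsimp only at huv ⊢
      generalize (vl K b C ++ extra c).get u = x at *
      generalize (vl K b C ++ extra c).get v = y at *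
      obtain ⟨n, i, j⟩ := x
      obtain ⟨n', i', j'⟩ := y
      dsimp only at hu' hv'
      rcases hu' with ⟨rfl, h1, rfl⟩ | ⟨rfl, h1, h2⟩ <;>
        rcases hv' with ⟨rfl, h1', rfl⟩ | ⟨rfl, h1', h2'⟩
      · simp only [num, if_true] at huv
        rw [huv]
      · simp [num] at huv
        omega
      · simp [num] at huv
        omega
      · simp [num] at huv
        rcases lt_trichotomy i i' with hii | hii | hii
        · have := item_lt hii h2
          omega
        · subst hii
          have : j = j' := by omega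
          rw [this]
        · have := item_lt hii h2'
          omega
    · intro u v hu hv huv
      rw [Finset.mem_filter, not_and] at hu hv
      have hu' := path_mem (List.get_mem _ _) (hu (Finset.mem_univ _))
      have hv' := path_mem (List.get_mem _ _) (hv (Finset.mem_univ _))
      have hadj := ((lgraph_adj (l := vl K b C ++ extra c) (ad := adE (ad b C)) u v).1 huv).2
      dsimp only
      generalize (vl K b C ++ extra c).get u = x at *
      generalize (vl K b C ++ extra c).get v = y at *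
      obtain ⟨n, i, j⟩ := x
      obtain ⟨n', i', j'⟩ := y
      dsimp only at hu' hv'
      have hadj2 : Adj b C (n, i, j) (n', i', j') := by
        have e1 : n ≠ 4 := by omega
        have e2 : n' ≠ 4 := by omega
        unfold adE at hadj
        simp only [e1, e2, decide_false, Bool.not_false, Bool.false_and, Bool.true_and,
          Bool.false_or] at hadj
        exact hadj
      rcases hu' with ⟨rfl, h1, rfl⟩ | ⟨rfl, h1, h2⟩ <;>
        rcases hv' with ⟨rfl, h1', rfl⟩ | ⟨rfl, h1', h2'⟩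
      · rw [adj_ff] at hadj2
        simp only [num, if_true]
        omega
      · exact absurd hadj2 adj_fi
      · exact absurd hadj2.symm adj_fi
      · rw [adj_ii] at hadj2
        obtain ⟨rfl, h⟩ := hadj2
        simp [num]
        omega
  exact key

end

section Gen

variable {α : Type} [TEnc α]

theorem poly_ad {b C : α → ℕ} (hb : Poly b) (hC : Poly C) :
    Poly (fun p : α × TH656.Vt × TH656.Vt => ad (b p.1) (C p.1) p.2.1 p.2.2) := by
  unfold ad nf ni
  have h1 : Poly (fun p : α × TH656.Vt × TH656.Vt => b p.1) := hb.comp (NPC.Poly.fst NPC.Poly.id)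
  have h2 : Poly (fun p : α × TH656.Vt × TH656.Vt => C p.1) := hC.comp (NPC.Poly.fst NPC.Poly.id)
  fun_prop

theorem poly_adE {b C : α → ℕ} (hb : Poly b) (hC : Poly C) :
    Poly (fun p : α × TH656.Vt × TH656.Vt => adE (ad (b p.1) (C p.1)) p.2.1 p.2.2) := by
  unfold adE
  refine NPC.Poly.or ?_ (NPC.Poly.and ?_ (poly_ad hb hC))
  · fun_prop
  · fun_prop

theorem poly_vl {K : α → List ℕ} {b C M : α → ℕ} (hK : Poly K) (hb : UPoly b) (hC : UPoly C)
    (hM : UPoly M) (h : ∀ x i, (K x).getD i 0 ≤ M x) :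
    Poly (fun x => vl (K x) (b x) (C x)) := by
  unfold vl
  have r1 : Poly (fun x => List.range (b x * (C x + 1) + 1)) :=
    (UPoly.add (UPoly.mul hb (UPoly.add hC (UPoly.const 1))) (UPoly.const 1)).range
  have r3 : Poly (fun x => List.range (K x).length) := (UPoly.length hK).range
  have r4 : Poly (fun p : α × ℕ => List.range (2 * (K p.1).getD p.2 0 - 1)) := by
    refine UPoly.range ?_
    refine UPoly.of_le (n := fun p : α × ℕ => 2 * M p.1) ?_
      (UPoly.mul (UPoly.const 2) (hM.comp (NPC.Poly.fst NPC.Poly.id)))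
      fun p => (Nat.sub_le _ _).trans (Nat.mul_le_mul_left 2 (h p.1 p.2))
    exact NPC.Poly.sub (NPC.Poly.mul (NPC.Poly.const 2)
      (NPC.Poly.getD (hK.comp (NPC.Poly.fst NPC.Poly.id)) (NPC.Poly.snd NPC.Poly.id)
        (NPC.Poly.const 0))) (NPC.Poly.const 1)
  have m1 : Poly (fun x => (List.range (b x * (C x + 1) + 1)).map
      (fun i => ((2, i, 0) : TH656.Vt))) :=
    NPC.Poly.map (F := fun _ i => ((2, i, 0) : TH656.Vt)) r1 (by fun_prop)
  have m3 : Poly (fun x => (List.range (K x).length).flatMap (fun i =>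
      (List.range (2 * (K x).getD i 0 - 1)).map (fun q => ((3, i, q) : TH656.Vt)))) := by
    refine NPC.Poly.flatMap (F := fun x i =>
      (List.range (2 * (K x).getD i 0 - 1)).map (fun q => ((3, i, q) : TH656.Vt))) r3 ?_
    exact NPC.Poly.map (F := fun (p : α × ℕ) q => ((3, p.2, q) : TH656.Vt)) r4 (by fun_prop)
  exact NPC.Poly.append (NPC.Poly.append (NPC.Poly.const hubs) m1) m3

theorem uSc {a : α → List ℕ} (ha : Poly a) : UPoly (fun x => sc (a x)) := by
  unfold sc
  exact UPoly.mul (UPoly.const 2) (UPoly.add (UPoly.length ha) (UPoly.const 1))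

theorem poly_Ks {a : α → List ℕ} (ha : Poly a) : Poly (fun x => Ks (a x)) := by
  unfold Ks
  refine NPC.Poly.map (F := fun x y => sc (a x) * y) ha ?_
  exact NPC.Poly.mul ((uSc ha).toPoly.comp (NPC.Poly.fst NPC.Poly.id)) (NPC.Poly.snd NPC.Poly.id)

theorem poly_grE0 (c : ℕ) {K : α → List ℕ} {b C M : α → ℕ} (hK : Poly K) (hb : UPoly b)
    (hC : UPoly C) (hM : UPoly M) (h : ∀ x i, (K x).getD i 0 ≤ M x) :
    Poly (fun x => grE c (K x) (b x) (C x)) := by
  unfold grE
  exact poly_lgraph (NPC.Poly.append (poly_vl hK hb hC hM h) (NPC.Poly.const _))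
    (poly_adE hb.toPoly hC.toPoly)

theorem poly_grE (c : ℕ) {a : α → List ℕ} {b B M : α → ℕ} (ha : Poly a) (hb : UPoly b)
    (hB : UPoly B) (hM : UPoly M) (h : ∀ x i, (a x).getD i 0 ≤ M x) :
    Poly (fun x => grE c (Ks (a x)) (b x) (sc (a x) * B x)) := by
  have hC : UPoly (fun x => sc (a x) * B x) := UPoly.mul (uSc ha) hB
  have hM' : UPoly (fun x => sc (a x) * M x) := UPoly.mul (uSc ha) hM
  have hle : ∀ x i, (Ks (a x)).getD i 0 ≤ sc (a x) * M x := by
    intro x i
    rw [Ks_getD]
    exact Nat.mul_le_mul_left _ (h x i)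
  exact poly_grE0 c (K := fun x => Ks (a x)) (C := fun x => sc (a x) * B x)
    (M := fun x => sc (a x) * M x) (poly_Ks ha) hb hC hM' hle

end Gen

/-- The graph of a bin packing instance. -/
def gB (c : ℕ) (a : List ℕ) (b B : ℕ) : FinGraph := grE c (Ks a) b (sc a * B)

theorem gB_le3 (c : ℕ) {a : List ℕ} {b B : ℕ} (hb : 1 ≤ b) (hB : 1 ≤ B) :
    boxicity (gB c a b B).graph ≤ 3 + c ↔ ∃ f : ℕ → ℕ, (∀ i < a.length, f i < b) ∧
      ∀ j < b, ∑ i ∈ (Finset.range a.length).filter (fun i => f i = j), a.getD i 0 ≤ B := by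
  rw [boxicity_le_iff, ← three_iff hb hB]
  exact grE_iff c 3

/-- The graph of an instance of exact cover by 3-sets. -/
noncomputable def redE (c : ℕ) (I : List (ℕ × ℕ × ℕ) × ℕ) : FinGraph :=
  if tst I then gB c (sizes (clip I)) (bb (clip I)) (BB (clip I)) else gB c [2] 1 1

theorem poly_redE (c : ℕ) : Poly (redE c) := by
  unfold redE
  refine NPC.Poly.ite (p := tst) poly_tst ?_ (NPC.Poly.const _)
  exact poly_grE c (poly_sizes.comp poly_clip) ubb uBB (UPoly.mul ubb uBB) fun I i =>
    (getD_le_sum _ i).trans (clip_tst I).1.le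

theorem near_redE (c : ℕ) (I : List (ℕ × ℕ × ℕ) × ℕ) : NearPaths (redE c I).graph (8 + 2 * c) := by
  by_cases h : tst I
  · have hr : redE c I = gB c (sizes (clip I)) (bb (clip I)) (BB (clip I)) := by
      unfold redE
      rw [if_pos h]
    rw [hr]
    exact near c _ _ _
  · have hr : redE c I = gB c [2] 1 1 := by
      unfold redE
      rw [if_neg h]
    rw [hr]
    exact near c _ _ _

theorem redE_four (c : ℕ) (I : List (ℕ × ℕ × ℕ) × ℕ) (hI : Pr I.1 I.2) :
    3 + c ≤ boxicity (redE c I).graph ∧ boxicity (redE c I).graph ≤ 4 + c := by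
  have hbd : Pool.Agent.NPC.SNP.bd I = I := by
    unfold Pool.Agent.NPC.SNP.bd
    rw [Nat.min_eq_left (q_le hI)]
  have hb : 1 ≤ bb I := by
    have := hI.ne
    have h2 : 0 < I.1.length := List.length_pos_iff.2 this
    unfold bb
    omega
  have hB : 1 ≤ BB I := by
    unfold BB MM
    omega
  by_cases h : tst I
  · have hc : clip I = I := by
      unfold clip
      rw [if_pos h, hbd]
    have hr : redE c I = gB c (sizes I) (bb I) (BB I) := by
      unfold redE
      rw [if_pos h, hc]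
    rw [hr]
    exact ⟨grE_ge3 c hb (two_le hB), grE_le4 c hb (two_le hB)⟩
  · have hr : redE c I = gB c [2] 1 1 := by
      unfold redE
      rw [if_neg h]
    rw [hr]
    exact ⟨grE_ge3 c le_rfl (two_le le_rfl), grE_le4 c le_rfl (two_le le_rfl)⟩

theorem redE_correct (c : ℕ) (I : List (ℕ × ℕ × ℕ) × ℕ) (hI : Pr I.1 I.2) :
    X3C I ↔ boxicity (redE c I).graph ≤ 3 + c := by
  have hbd : Pool.Agent.NPC.SNP.bd I = I := by
    unfold Pool.Agent.NPC.SNP.bd
    rw [Nat.min_eq_left (q_le hI)]
  rw [Pool.Agent.H43R3.SN.SRC.taskSRC I hI]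
  have hb : 1 ≤ bb I := by
    have := hI.ne
    have h2 : 0 < I.1.length := List.length_pos_iff.2 this
    unfold bb
    omega
  have hB : 1 ≤ BB I := by
    unfold BB MM
    omega
  by_cases h : tst I
  · have hc : clip I = I := by
      unfold clip
      rw [if_pos h, hbd]
    have hr : redE c I = gB c (sizes I) (bb I) (BB I) := by
      unfold redE
      rw [if_pos h, hc]
    rw [hr, gB_le3 c hb hB]
    have hsum : (sizes I).sum = bb I * BB I := by
      unfold tst at h
      rwa [hbd] at h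
    constructor
    · rintro ⟨_, h1⟩
      exact h1
    · intro h1
      exact ⟨hsum, h1⟩
  · have hr : redE c I = gB c [2] 1 1 := by
      unfold redE
      rw [if_neg h]
    rw [hr, gB_le3 c le_rfl le_rfl]
    constructor
    · rintro ⟨h1, _⟩
      exfalso
      apply h
      unfold tst
      rwa [hbd]
    · rintro ⟨f, hf1, hf2⟩
      exfalso
      have h3 := hf1 0 (by simp)
      have h4 := hf2 0 (by norm_num)
      have h5 : f 0 = 0 := by omega
      simp [Finset.sum_filter, h5] at h4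

/-- The properties of all instances. -/
theorem hardE (c : ℕ) : HardPr
    (fun G : FinGraph => NearPaths G.graph (8 + 2 * c) ∧
      (3 + c ≤ boxicity G.graph ∧ boxicity G.graph ≤ 4 + c))
    (fun G => boxicity G.graph ≤ 3 + c) :=
  hardPr_X3Cr.trans (poly_redE c) (fun I hI => ⟨near_redE c I, redE_four c I hI⟩) (redE_correct c)

/-- The reduction. -/
theorem reduction (d : ℕ) (hd : 3 ≤ d) (L : Set (List Bool)) (hL : InNP L) :
    ∃ f : List Bool → FinGraph, PolyTime (fun x => bits (f x)) ∧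
      ∀ x, NearPaths (f x).graph (2 * d + 2) ∧ pathwidth (f x).graph ≤ 2 * d + 3 ∧
        treewidth (f x).graph ≤ 2 * d + 3 ∧ (x ∈ L → boxicity (f x).graph = d) ∧
        (x ∉ L → boxicity (f x).graph = d + 1) := by
  obtain ⟨c, rfl⟩ : ∃ c, d = 3 + c := ⟨d - 3, by omega⟩
  obtain ⟨f, hf, h1, h2⟩ := hardE c L hL
  refine ⟨f, PC.toPolyTime hf, fun x => ?_⟩
  have hnear : NearPaths (f x).graph (2 * (3 + c) + 2) := by
    have h := (h1 x).1
    rwa [show 8 + 2 * c = 2 * (3 + c) + 2 by ring] at h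
  have h4 := (h1 x).2
  refine ⟨hnear, hnear.pathwidth_le, hnear.treewidth_le, fun hx => ?_, fun hx => ?_⟩
  · have h3 := (h2 x).1 hx
    omega
  · have h3 : ¬ boxicity (f x).graph ≤ 3 + c := fun h => hx ((h2 x).2 h)
    omega

/-- The decision problems. -/
theorem hard_near (d : ℕ) (hd : 3 ≤ d) (k : ℕ) (hk : 2 * d + 2 ≤ k) :
    NPHardP (fun G : FinGraph => NearPaths G.graph k ∧ boxicity G.graph ≤ d) := by
  obtain ⟨c, rfl⟩ : ∃ c, d = 3 + c := ⟨d - 3, by omega⟩
  exact ((hardE c).trans (Pr' := fun _ => True)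
    (Q := fun G : FinGraph => NearPaths G.graph k ∧ boxicity G.graph ≤ 3 + c)
    (f := fun G => G) NPC.Poly.id (fun _ _ => trivial)
    (fun G hG => ⟨fun h => ⟨hG.1.mono (by omega), h⟩, fun h => h.2⟩)).toHardI.toNPHardP

/-- The decision problems, with the treewidth. -/
theorem hard_tw (d : ℕ) (hd : 3 ≤ d) (t : ℕ) (ht : 2 * d + 3 ≤ t) :
    NPHardP (fun G : FinGraph => treewidth G.graph ≤ t ∧ boxicity G.graph ≤ d) := by
  obtain ⟨c, rfl⟩ : ∃ c, d = 3 + c := ⟨d - 3, by omega⟩
  exact ((hardE c).trans (Pr' := fun _ => True)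
    (Q := fun G : FinGraph => treewidth G.graph ≤ t ∧ boxicity G.graph ≤ 3 + c)
    (f := fun G => G) NPC.Poly.id (fun _ _ => trivial)
    (fun G hG => ⟨fun h => ⟨hG.1.treewidth_le.trans (by omega), h⟩, fun h => h.2⟩)).toHardI.toNPHardP

end Pool.Agent.KS6_79.BX
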